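import Mathlib
import Pool.Agent.H765R3.Had.Sep

set_option autoImplicit false

open Set Filter Topology
open scoped InnerProductSpace

/-!
# Bodies invariant under maps of blocks, with an arbitrary fixed part

Limit arguments (along ultrafilters) for the separation of the faces.
-/

namespace Pool.Agent.V7H52.GX

/-- `w` is positive on all nonzero vectors `z` which maximise `⟪u, ·⟫` on their orbit. -/
def Test {E : Type*} [NormedAddCommGroup E] [InnerProductSpace ℝ E] (Γ : Set (E → E))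
    (u w : E) : Prop :=
  ∀ z : E, z ≠ 0 → (∀ g ∈ Γ, ⟪u, g z⟫_ℝ ≤ ⟪u, z⟫_ℝ) → 0 < ⟪w, z⟫_ℝ

/-- Each orbit of a nonzero vector meets every open half-space with `0` on its boundary. -/
def Moving {E : Type*} [NormedAddCommGroup E] [InnerProductSpace ℝ E] (Γ : Set (E → E)) :
    Prop :=
  ∀ u z : E, u ≠ 0 → z ≠ 0 → ∃ g ∈ Γ, 0 < ⟪u, g z⟫_ℝ

/-- The maps in `Γ` are continuous and positively homogeneous. -/
def Hom {E : Type*} [NormedAddCommGroup E] [InnerProductSpace ℝ E] (Γ : Set (E → E)) : Prop :=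
  ∀ g ∈ Γ, Continuous g ∧ ∀ (c : ℝ) (z : E), 0 < c → g (c • z) = c • g z

/-- `x` maximises `⟪u, ·⟫` on `K`. -/
def Mx {V : Type*} [NormedAddCommGroup V] [InnerProductSpace ℝ V] (K : Set V) (u x : V) : Prop :=
  x ∈ K ∧ ∀ y ∈ K, ⟪u, y⟫_ℝ ≤ ⟪u, x⟫_ℝ

/-- An orthogonal decomposition into blocks `E i` and a last part `F`. -/
structure Dec (ι : Type*) [Fintype ι] (E : ι → Type*) [∀ i, NormedAddCommGroup (E i)]
    [∀ i, InnerProductSpace ℝ (E i)] (F : Type*) [NormedAddCommGroup F] [InnerProductSpace ℝ F]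
    (V : Type*) [NormedAddCommGroup V] [InnerProductSpace ℝ V] where
  /-- the blocks -/
  p : ∀ i, V →L[ℝ] E i
  /-- the last part -/
  q : V →L[ℝ] F
  /-- vectors with given parts -/
  glue : (∀ i, E i) → F → V
  p_glue : ∀ a b i, p i (glue a b) = a i
  q_glue : ∀ a b, q (glue a b) = b
  inner_eq : ∀ x y, ⟪x, y⟫_ℝ = ∑ i, ⟪p i x, p i y⟫_ℝ + ⟪q x, q y⟫_ℝ

section

variable {ι : Type*} [Fintype ι] [DecidableEq ι] {E : ι → Type*} [∀ i, NormedAddCommGroup (E i)]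
  [∀ i, InnerProductSpace ℝ (E i)] [∀ i, FiniteDimensional ℝ (E i)] {F : Type*}
  [NormedAddCommGroup F] [InnerProductSpace ℝ F] [FiniteDimensional ℝ F]
  {V : Type*} [NormedAddCommGroup V] [InnerProductSpace ℝ V] [FiniteDimensional ℝ V]
  (T : Dec ι E F V) {K : Set V} {Γ : ∀ i, Set (E i → E i)}

omit [DecidableEq ι] [∀ i, FiniteDimensional ℝ (E i)] [FiniteDimensional ℝ F]
  [FiniteDimensional ℝ V] in
theorem Dec.ext {x y : V} (h : ∀ i, T.p i x = T.p i y) (h' : T.q x = T.q y) : x = y := by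
  have h1 : ⟪x - y, x - y⟫_ℝ = 0 := by
    rw [T.inner_eq]
    simp [map_sub, h, h']
  exact sub_eq_zero.1 (inner_self_eq_zero.1 h1)

/-- Invariance of `K` under the maps of the block `i`. -/
def Inv (K : Set V) (Γ : ∀ i, Set (E i → E i)) : Prop :=
  ∀ i, ∀ g ∈ Γ i, ∀ x ∈ K, ∀ y, T.p i y = g (T.p i x) → (∀ j, j ≠ i → T.p j y = T.p j x) →
    T.q y = T.q x → y ∈ K

omit [FiniteDimensional ℝ F] [FiniteDimensional ℝ V] in
theorem zero_one (hK : Convex ℝ K) (hKc : IsCompact K) (hinv : Inv T K Γ) {i : ι}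
    (hmov : Moving (Γ i)) {x y : V} (hx : x ∈ K) (hi : T.p i y = 0)
    (hj : ∀ j, j ≠ i → T.p j y = T.p j x) (hq : T.q y = T.q x) : y ∈ K := by
  set A : Set V := K ∩ {z | (∀ j, j ≠ i → T.p j z = T.p j x) ∧ T.q z = T.q x} with hA
  have hAc : IsCompact A := by
    refine hKc.inter_right ?_
    have : {z : V | (∀ j, j ≠ i → T.p j z = T.p j x) ∧ T.q z = T.q x} =
        (⋂ j, ⋂ (_ : j ≠ i), {z | T.p j z = T.p j x}) ∩ {z | T.q z = T.q x} := by
      ext z; simp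
    rw [this]
    refine IsClosed.inter (isClosed_iInter fun j => isClosed_iInter fun _ => ?_) ?_
    · exact isClosed_eq (T.p j).continuous continuous_const
    · exact isClosed_eq T.q.continuous continuous_const
  have hAv : Convex ℝ A := by
    intro z hz z' hz' α β hα hβ hαβ
    refine ⟨hK hz.1 hz'.1 hα hβ hαβ, fun j hj' => ?_, ?_⟩
    · rw [map_add, map_smul, map_smul, hz.2.1 j hj', hz'.2.1 j hj', ← add_smul, hαβ, one_smul]
    · rw [map_add, map_smul, map_smul, hz.2.2, hz'.2.2, ← add_smul, hαβ, one_smul]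
  set B : Set (E i) := T.p i '' A with hB
  have hBc : IsCompact B := hAc.image (T.p i).continuous
  have hBv : Convex ℝ B := hAv.linear_image (T.p i).toLinearMap
  have h0 : (0 : E i) ∈ B := by
    by_contra h0
    obtain ⟨f, s, hf1, hf2⟩ := geometric_hahn_banach_closed_point hBv hBc.isClosed h0
    rw [map_zero] at hf2
    set u : E i := (InnerProductSpace.toDual ℝ (E i)).symm f with hu
    have hfu : ∀ z, f z = ⟪u, z⟫_ℝ := fun z => by
      rw [hu, InnerProductSpace.toDual_symm_apply]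
    obtain ⟨z, hz⟩ : B.Nonempty := ⟨T.p i x, x, ⟨hx, fun j _ => rfl, rfl⟩, rfl⟩
    have hz1 : ⟪u, z⟫_ℝ < 0 := by rw [← hfu]; exact (hf1 z hz).trans hf2
    have hu0 : u ≠ 0 := by
      intro h; rw [h, inner_zero_left] at hz1; exact lt_irrefl _ hz1
    have hz0 : z ≠ 0 := by
      intro h; rw [h, inner_zero_right] at hz1; exact lt_irrefl _ hz1
    obtain ⟨g, hg, hpos⟩ := hmov u z hu0 hz0
    obtain ⟨v, hv, hvz⟩ := hz
    set z' : V := T.glue (Function.update (fun j => T.p j v) i (g (T.p i v))) (T.q v) with hz'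
    have hp1 : T.p i z' = g (T.p i v) := by rw [hz', T.p_glue]; simp
    have hp2 : ∀ j, j ≠ i → T.p j z' = T.p j v := fun j hj => by
      rw [hz', T.p_glue]; simp [Function.update_of_ne hj]
    have hp3 : T.q z' = T.q v := by rw [hz', T.q_glue]
    have hz'K : z' ∈ K := hinv i g hg v hv.1 z' hp1 hp2 hp3
    have hmem : g z ∈ B := by
      refine ⟨z', ⟨hz'K, fun j hj' => ?_, ?_⟩, ?_⟩
      · rw [hp2 j hj', hv.2.1 j hj']
      · rw [hp3, hv.2.2]
      · rw [hp1, hvz]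
    have h5 := (hf1 _ hmem).trans hf2
    rw [hfu] at h5
    linarith
  obtain ⟨z, hz, hz0⟩ := h0
  have : y = z := by
    refine T.ext (fun j => ?_) ?_
    · by_cases hji : j = i
      · subst hji; rw [hi, hz0]
      · rw [hj j hji, hz.2.1 j hji]
    · rw [hq, hz.2.2]
  rw [this]; exact hz.1

omit [FiniteDimensional ℝ F] [FiniteDimensional ℝ V] in
theorem zero_many (hK : Convex ℝ K) (hKc : IsCompact K) (hinv : Inv T K Γ)
    (hmov : ∀ i, Moving (Γ i)) (S : Finset ι) : ∀ x ∈ K, ∀ y : V, (∀ j ∈ S, T.p j y = 0) →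
      (∀ j, j ∉ S → T.p j y = T.p j x) → T.q y = T.q x → y ∈ K := by
  induction S using Finset.induction_on with
  | empty =>
    intro x hx y _ h2 h3
    rw [T.ext (fun j => h2 j (by simp)) h3]; exact hx
  | insert i S hi ih =>
    intro x hx y h1 h2 h3
    set z : V := T.glue (Function.update (fun j => T.p j y) i (T.p i x)) (T.q y) with hz
    have hz1 : T.p i z = T.p i x := by rw [hz, T.p_glue]; simp
    have hz2 : ∀ j, j ≠ i → T.p j z = T.p j y := fun j hj => by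
      rw [hz, T.p_glue]; simp [Function.update_of_ne hj]
    have hz3 : T.q z = T.q y := by rw [hz, T.q_glue]
    have hzK : z ∈ K := by
      refine ih x hx z (fun j hj => ?_) (fun j hj => ?_) (hz3.trans h3)
      · have hji : j ≠ i := fun h => hi (h ▸ hj)
        rw [hz2 j hji]; exact h1 j (Finset.mem_insert_of_mem hj)
      · by_cases hji : j = i
        · subst hji; exact hz1
        · rw [hz2 j hji]; exact h2 j (by simp [hji, hj])
    exact zero_one T hK hKc hinv (hmov i) hzK (h1 i (Finset.mem_insert_self _ _))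
      (fun j hj => (hz2 j hj).symm) hz3.symm

omit [FiniteDimensional ℝ F] [FiniteDimensional ℝ V] in
theorem zero_all (hK : Convex ℝ K) (hKc : IsCompact K) (hinv : Inv T K Γ)
    (hmov : ∀ i, Moving (Γ i)) {x : V} (hx : x ∈ K) : T.glue 0 (T.q x) ∈ K :=
  zero_many T hK hKc hinv hmov Finset.univ x hx _ (fun j _ => by rw [T.p_glue]; rfl)
    (fun j hj => absurd (Finset.mem_univ j) hj) (T.q_glue _ _)

omit [∀ i, FiniteDimensional ℝ (E i)] [FiniteDimensional ℝ F] [FiniteDimensional ℝ V] in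
theorem max_block (hinv : Inv T K Γ) {i : ι} {g : E i → E i} (hg : g ∈ Γ i) {u x : V}
    (hx : Mx K u x) : ⟪T.p i u, g (T.p i x)⟫_ℝ ≤ ⟪T.p i u, T.p i x⟫_ℝ := by
  set z : V := T.glue (Function.update (fun j => T.p j x) i (g (T.p i x))) (T.q x) with hz
  have hz1 : T.p i z = g (T.p i x) := by rw [hz, T.p_glue]; simp
  have hz2 : ∀ j, j ≠ i → T.p j z = T.p j x := fun j hj => by
    rw [hz, T.p_glue]; simp [Function.update_of_ne hj]
  have hz3 : T.q z = T.q x := by rw [hz, T.q_glue]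
  have h := hx.2 z (hinv i g hg x hx.1 z hz1 hz2 hz3)
  rw [T.inner_eq, T.inner_eq, hz3, ← Finset.add_sum_erase _ _ (Finset.mem_univ i),
    ← Finset.add_sum_erase Finset.univ (fun j => ⟪T.p j u, T.p j x⟫_ℝ) (Finset.mem_univ i),
    hz1] at h
  have h2 : ∑ j ∈ Finset.univ.erase i, ⟪T.p j u, T.p j z⟫_ℝ =
      ∑ j ∈ Finset.univ.erase i, ⟪T.p j u, T.p j x⟫_ℝ :=
    Finset.sum_congr rfl fun j hj => by rw [hz2 j (Finset.mem_erase.1 hj).1]
  rw [h2] at h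
  linarith

omit [FiniteDimensional ℝ V] in
theorem max_pos (h0 : (0 : V) ∈ interior K) {u x : V} (hu : u ≠ 0) (hx : Mx K u x) :
    0 < ⟪u, x⟫_ℝ := by
  obtain ⟨δ, hδ, hball⟩ := Metric.isOpen_iff.1 isOpen_interior 0 h0
  have hnu : 0 < ‖u‖ := norm_pos_iff.2 hu
  have h1 : (δ / (2 * ‖u‖)) • u ∈ K := interior_subset (hball (by
    rw [mem_ball_zero_iff, norm_smul, Real.norm_eq_abs, abs_of_pos (by positivity)]
    have : δ / (2 * ‖u‖) * ‖u‖ = δ / 2 := by field_simp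
    rw [this]; linarith))
  have h2 := hx.2 _ h1
  rw [inner_smul_right, real_inner_self_eq_norm_sq] at h2
  have : 0 < δ / (2 * ‖u‖) * ‖u‖ ^ 2 := by positivity
  linarith

/-- The section by the last part. -/
def Sec (K : Set V) : Set F := {b | T.glue 0 b ∈ K}

omit [FiniteDimensional ℝ F] [FiniteDimensional ℝ V] in
theorem max_sec (hK : Convex ℝ K) (hKc : IsCompact K) (hinv : Inv T K Γ)
    (hmov : ∀ i, Moving (Γ i)) {u x : V} (hx : Mx K u x)
    (h : ∀ i, T.p i u = 0 ∨ T.p i x = 0) :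
    Mx (Sec T K) (T.q u) (T.q x) ∧ ⟪u, x⟫_ℝ = ⟪T.q u, T.q x⟫_ℝ := by
  have h1 : ⟪u, x⟫_ℝ = ⟪T.q u, T.q x⟫_ℝ := by
    rw [T.inner_eq, Finset.sum_eq_zero, zero_add]
    intro i _
    rcases h i with h | h
    · rw [h, inner_zero_left]
    · rw [h, inner_zero_right]
  refine ⟨⟨zero_all T hK hKc hinv hmov hx.1, fun b hb => ?_⟩, h1⟩
  have h2 := hx.2 _ hb
  rw [T.inner_eq, Finset.sum_eq_zero (fun i _ => by rw [T.p_glue]; exact inner_zero_right _),
    zero_add, T.q_glue] at h2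
  rw [← h1]; exact h2

omit [FiniteDimensional ℝ F] [FiniteDimensional ℝ V] in
/-- The limit lemma. -/
theorem lim (hΓ : ∀ i, Hom (Γ i)) (hKc : IsCompact K) (hinv : Inv T K Γ) (𝒰 : Ultrafilter ℕ) {u x : ℕ → V} {a : V}
    (hu : Tendsto u 𝒰 (𝓝 a)) (hx : ∀ n, Mx K (u n) (x n)) {S : Finset ι} {c : ℕ → ι → ℝ}
    (hc : ∀ n i, 0 < c n i) {v : ∀ i, E i}
    (hv : ∀ i ∈ S, Tendsto (fun n => c n i • T.p i (u n)) 𝒰 (𝓝 (v i)))
    {w : ∀ i, E i} (hw : ∀ i ∈ S, Test (Γ i) (v i) (w i)) (hw0 : ∀ i, i ∉ S → w i = 0)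
    {w0 : F} (h0 : ∀ y, Mx K a y → (∀ i ∈ S, T.p i y = 0) → 0 < ⟪w0, T.q y⟫_ℝ)
    {δ : ℕ → ℝ} (hδ : Tendsto δ 𝒰 (𝓝 0)) (hδ0 : ∀ n, 0 < δ n) :
    ∀ᶠ n in (𝒰 : Filter ℕ), 0 < ∑ i, ⟪w i, T.p i (x n)⟫_ℝ + δ n * ⟪w0, T.q (x n)⟫_ℝ := by
  by_contra hcon
  rw [← Ultrafilter.eventually_not] at hcon
  push Not at hcon
  obtain ⟨y, hyK, hy⟩ := hKc.ultrafilter_le_nhds (𝒰.map x)
    (le_principal_iff.2 (Eventually.of_forall fun n => (hx n).1 : ∀ᶠ n in (𝒰 : Filter ℕ), x n ∈ K))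
  have hy : Tendsto x 𝒰 (𝓝 y) := hy
  have hymax : Mx K a y := by
    refine ⟨hyK, fun z hz => ?_⟩
    exact le_of_tendsto_of_tendsto' (hu.inner tendsto_const_nhds) (hu.inner hy)
      fun n => (hx n).2 z hz
  have hpy : ∀ i, Tendsto (fun n => T.p i (x n)) 𝒰 (𝓝 (T.p i y)) := fun i =>
    ((T.p i).continuous.tendsto y).comp hy
  have hqy : Tendsto (fun n => T.q (x n)) 𝒰 (𝓝 (T.q y)) := (T.q.continuous.tendsto y).comp hy
  have hblk : ∀ i ∈ S, ∀ g ∈ Γ i, ⟪v i, g (T.p i y)⟫_ℝ ≤ ⟪v i, T.p i y⟫_ℝ := by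
    intro i hi g hg
    have hgy : Tendsto (fun n => g (T.p i (x n))) 𝒰 (𝓝 (g (T.p i y))) :=
      ((hΓ i g hg).1.tendsto _).comp (hpy i)
    refine le_of_tendsto_of_tendsto' ((hv i hi).inner hgy) ((hv i hi).inner (hpy i)) fun n => ?_
    rw [inner_smul_left, inner_smul_left]
    simp only [conj_trivial]
    exact mul_le_mul_of_nonneg_left (max_block T hinv hg (hx n)) (hc n i).le
  have hnn : ∀ i, 0 ≤ ⟪w i, T.p i y⟫_ℝ := by
    intro i
    by_cases hi : i ∈ S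
    · by_cases hz : T.p i y = 0
      · rw [hz, inner_zero_right]
      · exact (hw i hi _ hz (hblk i hi)).le
    · rw [hw0 i hi, inner_zero_left]
  have hle : ∑ i, ⟪w i, T.p i y⟫_ℝ + 0 * ⟪w0, T.q y⟫_ℝ ≤ 0 := by
    refine le_of_tendsto (Tendsto.add (tendsto_finsetSum _ fun i _ =>
      tendsto_const_nhds.inner (hpy i)) (hδ.mul (tendsto_const_nhds.inner hqy))) hcon
  have hzero : ∀ i ∈ S, T.p i y = 0 := by
    intro i hi
    by_contra hz
    have h1 := hw i hi _ hz (hblk i hi)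
    have h2 : 0 < ∑ i, ⟪w i, T.p i y⟫_ℝ :=
      Finset.sum_pos' (fun j _ => hnn j) ⟨i, Finset.mem_univ i, h1⟩
    linarith
  have hpos := h0 y hymax hzero
  have hev : ∀ᶠ n in (𝒰 : Filter ℕ), 0 < ⟪w0, T.q (x n)⟫_ℝ :=
    (tendsto_const_nhds.inner hqy).eventually_const_lt hpos
  have hneg : ∀ᶠ n in (𝒰 : Filter ℕ), ∃ i, ⟪w i, T.p i (x n)⟫_ℝ < 0 := by
    filter_upwards [hev, hcon] with n h1 h2
    by_contra hall
    push Not at hall
    have h3 : 0 ≤ ∑ i, ⟪w i, T.p i (x n)⟫_ℝ := Finset.sum_nonneg fun i _ => hall i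
    have h4 := mul_pos (hδ0 n) h1
    linarith
  obtain ⟨i, hi⟩ := Ultrafilter.eventually_exists_iff.1 hneg
  have hiS : i ∈ S := by
    by_contra hiS
    obtain ⟨n, hn⟩ := hi.exists
    rw [hw0 i hiS, inner_zero_left] at hn
    exact lt_irrefl _ hn
  have hne : ∀ᶠ n in (𝒰 : Filter ℕ), T.p i (x n) ≠ 0 := by
    filter_upwards [hi] with n hn h
    rw [h, inner_zero_right] at hn
    exact lt_irrefl _ hn
  set z : ℕ → E i := fun n => ‖T.p i (x n)‖⁻¹ • T.p i (x n) with hz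
  have hz1 : ∀ᶠ n in (𝒰 : Filter ℕ), z n ∈ Metric.sphere (0 : E i) 1 := by
    filter_upwards [hne] with n hn
    rw [mem_sphere_zero_iff_norm, hz]
    simp only
    rw [norm_smul, norm_inv, norm_norm, inv_mul_cancel₀ (norm_ne_zero_iff.2 hn)]
  obtain ⟨ζ, hζ1, hζ⟩ := (isCompact_sphere (0 : E i) 1).ultrafilter_le_nhds (𝒰.map z)
    (le_principal_iff.2 hz1)
  have hζ : Tendsto z 𝒰 (𝓝 ζ) := hζ
  have hζ0 : ζ ≠ 0 := by
    intro h
    rw [h, mem_sphere_zero_iff_norm, norm_zero] at hζ1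
    exact zero_ne_one hζ1
  have h1 := hw i hiS ζ hζ0 (by
    intro g hg
    have hgz : Tendsto (fun n => g (z n)) 𝒰 (𝓝 (g ζ)) := ((hΓ i g hg).1.tendsto _).comp hζ
    refine le_of_tendsto_of_tendsto ((hv i hiS).inner hgz) ((hv i hiS).inner hζ) ?_
    filter_upwards [hne] with n hn
    have h2 : g (z n) = ‖T.p i (x n)‖⁻¹ • g (T.p i (x n)) :=
      (hΓ i g hg).2 _ _ (inv_pos.2 (norm_pos_iff.2 hn))
    rw [h2, hz]
    simp only
    rw [inner_smul_left, inner_smul_left, inner_smul_right, inner_smul_right]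
    simp only [conj_trivial]
    exact mul_le_mul_of_nonneg_left (mul_le_mul_of_nonneg_left (max_block T hinv hg (hx n))
      (by positivity)) (hc n i).le)
  have h2 : ⟪w i, ζ⟫_ℝ ≤ 0 := by
    refine le_of_tendsto (tendsto_const_nhds.inner hζ) ?_
    filter_upwards [hi] with n hn
    rw [hz]
    simp only
    rw [inner_smul_right]
    exact mul_nonpos_of_nonneg_of_nonpos (by positivity) hn.le
  linarith

omit [DecidableEq ι] [∀ i, FiniteDimensional ℝ (E i)] [FiniteDimensional ℝ F] in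
/-- From limits to a uniform `δ`. -/
theorem reduce {κ : Type*} (I : Finset κ) (A : κ → ∀ i, E i) (B : κ → F)
    (H : ∀ (𝒰 : Ultrafilter ℕ) (u : ℕ → V) (a : V) (δ : ℕ → ℝ), (∀ n, ‖u n‖ = 1) → ‖a‖ = 1 →
      Tendsto u 𝒰 (𝓝 a) → Tendsto δ 𝒰 (𝓝 0) → (∀ n, 0 < δ n) →
      ∃ k ∈ I, ∀ x : ℕ → V, (∀ n, Mx K (u n) (x n)) →
        ∀ᶠ n in (𝒰 : Filter ℕ), 0 < ∑ i, ⟪A k i, T.p i (x n)⟫_ℝ + δ n * ⟪B k, T.q (x n)⟫_ℝ) :
    ∃ δ : ℝ, 0 < δ ∧ ∀ u : V, u ≠ 0 → ∃ k ∈ I, ∀ x, Mx K u x →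
      0 < ∑ i, ⟪A k i, T.p i x⟫_ℝ + δ * ⟪B k, T.q x⟫_ℝ := by
  classical
  by_contra hcon
  push Not at hcon
  have h1 : ∀ n : ℕ, ∃ u : V, ‖u‖ = 1 ∧ ∀ k : κ, ∃ x : V, k ∈ I → Mx K u x ∧
      ∑ i, ⟪A k i, T.p i x⟫_ℝ + (1 / ((n : ℝ) + 1)) * ⟪B k, T.q x⟫_ℝ ≤ 0 := by
    intro n
    obtain ⟨u, hu, h⟩ := hcon (1 / ((n : ℝ) + 1)) (by positivity)
    have hnu : 0 < ‖u‖ := norm_pos_iff.2 hu
    refine ⟨‖u‖⁻¹ • u, ?_, fun k => ?_⟩
    · rw [norm_smul, norm_inv, norm_norm, inv_mul_cancel₀ hnu.ne']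
    · by_cases hk : k ∈ I
      · obtain ⟨x, hx, hle⟩ := h k hk
        refine ⟨x, fun _ => ⟨⟨hx.1, fun y hy => ?_⟩, hle⟩⟩
        rw [inner_smul_left, inner_smul_left]
        simp only [conj_trivial]
        exact mul_le_mul_of_nonneg_left (hx.2 y hy) (by positivity)
      · exact ⟨0, fun h => absurd h hk⟩
  choose u hu x hx using h1
  set 𝒰 : Ultrafilter ℕ := hyperfilter ℕ
  have h𝒰 : (𝒰 : Filter ℕ) ≤ atTop := by
    rw [← Nat.cofinite_eq_atTop]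
    exact hyperfilter_le_cofinite
  obtain ⟨a, ha1, ha⟩ := (isCompact_sphere (0 : V) 1).ultrafilter_le_nhds (𝒰.map u)
    (le_principal_iff.2 (Eventually.of_forall fun n => (by simpa using hu n) :
      ∀ᶠ n in (𝒰 : Filter ℕ), u n ∈ Metric.sphere (0 : V) 1))
  have ha : Tendsto u 𝒰 (𝓝 a) := ha
  have hδ : Tendsto (fun n : ℕ => (1 : ℝ) / ((n : ℝ) + 1)) 𝒰 (𝓝 0) :=
    tendsto_one_div_add_atTop_nhds_zero_nat.mono_left h𝒰
  obtain ⟨k, hk, h⟩ := H 𝒰 u a _ hu (by simpa using ha1) ha hδ (fun n => by positivity)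
  obtain ⟨n, hn⟩ := (h (fun n => x n k) (fun n => (hx n k hk).1)).exists
  exact absurd (hx n k hk).2 (not_le.2 hn)

omit [DecidableEq ι] [∀ i, FiniteDimensional ℝ (E i)] [FiniteDimensional ℝ F] in
/-- From a uniform `δ` to a uniform lower bound. -/
theorem finish (hKc : IsCompact K) {κ : Type*} (I : Finset κ) (A : κ → ∀ i, E i) (B : κ → F)
    (h : ∃ δ : ℝ, 0 < δ ∧ ∀ u : V, u ≠ 0 → ∃ k ∈ I, ∀ x, Mx K u x →
      0 < ∑ i, ⟪A k i, T.p i x⟫_ℝ + δ * ⟪B k, T.q x⟫_ℝ) :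
    ∃ (D : Finset V) (β : ℝ), D.card ≤ I.card ∧ 0 < β ∧ ∀ u : V, u ≠ 0 → ∃ w ∈ D, ∀ x,
      Mx K u x → β < ⟪w, x⟫_ℝ := by
  classical
  obtain ⟨δ, _, h⟩ := h
  set D : Finset V := I.image fun k => T.glue (A k) (δ • B k) with hD
  obtain ⟨β, hβ, hu⟩ := Pool.Agent.H765R3.Had.Grp.uniform hKc D (by
    intro u hu
    obtain ⟨k, hk, hx⟩ := h u hu
    refine ⟨_, Finset.mem_image_of_mem _ hk, fun x hxK hmax => ?_⟩
    have h1 := hx x ⟨hxK, hmax⟩
    rw [T.inner_eq]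
    simp only [T.p_glue, T.q_glue, inner_smul_left, conj_trivial]
    exact h1)
  refine ⟨D, β, Finset.card_image_le, hβ, fun u hu0 => ?_⟩
  obtain ⟨w, hw, h1⟩ := hu u hu0
  exact ⟨w, hw, fun x hx => h1 x hx.1 hx.2⟩

end

end Pool.Agent.V7H52.GX
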