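import Mathlib
import Pool.Agent.V7H52.GX.Core

set_option autoImplicit false

open Set Filter Topology
open scoped InnerProductSpace

/-!
# The faces of a cross-body
-/

namespace Pool.Agent.V7H52.GX

section

variable {F : Type*} [NormedAddCommGroup F] [InnerProductSpace ℝ F] [FiniteDimensional ℝ F]
  {e : ℕ} (b : Module.Basis (Fin e) ℝ F) (t : Fin e → ℝ)

/-- The functional that is `1` on the facet with the signs `σ`. -/
noncomputable def ell (σ : Fin e → Bool) : F →ₗ[ℝ] ℝ :=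
  ∑ i, (if σ i = true then (1 : ℝ) else -(t i)⁻¹) • b.coord i

/-- Its vector. -/
noncomputable def nrm (σ : Fin e → Bool) : F :=
  (InnerProductSpace.toDual ℝ F).symm (LinearMap.toContinuousLinearMap (ell b t σ))

theorem inner_nrm (σ : Fin e → Bool) (x : F) : ⟪nrm b t σ, x⟫_ℝ = ell b t σ x := by
  rw [nrm, InnerProductSpace.toDual_symm_apply]
  rfl

omit [FiniteDimensional ℝ F] in
theorem ell_apply (σ : Fin e → Bool) (x : F) :
    ell b t σ x = ∑ i, (if σ i = true then (1 : ℝ) else -(t i)⁻¹) * b.repr x i := by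
  simp only [ell, LinearMap.sum_apply, LinearMap.smul_apply, Module.Basis.coord_apply,
    smul_eq_mul]

/-- The terms of the gauge. -/
noncomputable def gt (x : F) (i : Fin e) : ℝ := max (b.repr x i) (-(t i)⁻¹ * b.repr x i)

/-- The cross-body with centre `0`. -/
def Cross : Set F := convexHull ℝ (⋃ i, ({b i, -(t i • b i)} : Set F))

variable {t}

omit [FiniteDimensional ℝ F] in
theorem gt_nonneg (ht : ∀ i, 0 < t i) (x : F) (i : Fin e) : 0 ≤ gt b t x i := by
  unfold gt
  have h : 0 < (t i)⁻¹ := inv_pos.2 (ht i)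
  rcases le_total 0 (b.repr x i) with h1 | h1
  · exact le_max_of_le_left h1
  · exact le_max_of_le_right (by nlinarith)

omit [FiniteDimensional ℝ F] in
theorem sum_gt_le (ht : ∀ i, 0 < t i) {x : F} (hx : x ∈ Cross b t) : ∑ i, gt b t x i ≤ 1 := by
  classical
  have hconv : Convex ℝ {x : F | ∑ i, gt b t x i ≤ 1} := by
    intro x hx y hy α β hα hβ hαβ
    simp only [mem_ofPred_eq] at hx hy ⊢
    have h1 : ∀ i, gt b t (α • x + β • y) i ≤ α * gt b t x i + β * gt b t y i := by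
      intro i
      have hx1 : b.repr x i ≤ gt b t x i := le_max_left _ _
      have hx2 : -(t i)⁻¹ * b.repr x i ≤ gt b t x i := le_max_right _ _
      have hy1 : b.repr y i ≤ gt b t y i := le_max_left _ _
      have hy2 : -(t i)⁻¹ * b.repr y i ≤ gt b t y i := le_max_right _ _
      have e1 : b.repr (α • x + β • y) i = α * b.repr x i + β * b.repr y i := by simp
      conv_lhs => unfold gt
      rw [e1]
      refine max_le ?_ ?_
      · nlinarith [mul_le_mul_of_nonneg_left hx1 hα, mul_le_mul_of_nonneg_left hy1 hβ]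
      · nlinarith [mul_le_mul_of_nonneg_left hx2 hα, mul_le_mul_of_nonneg_left hy2 hβ]
    calc ∑ i, gt b t (α • x + β • y) i ≤ ∑ i, (α * gt b t x i + β * gt b t y i) :=
          Finset.sum_le_sum fun i _ => h1 i
      _ = α * ∑ i, gt b t x i + β * ∑ i, gt b t y i := by
          rw [Finset.sum_add_distrib, Finset.mul_sum, Finset.mul_sum]
      _ ≤ α * 1 + β * 1 := by
          gcongr
      _ = 1 := by linarith
  refine convexHull_min ?_ hconv hx
  intro y hy
  obtain ⟨j, hj⟩ := mem_iUnion.1 hy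
  simp only [mem_ofPred_eq]
  have hpos : 0 < (t j)⁻¹ := inv_pos.2 (ht j)
  rcases hj with rfl | hj
  · rw [Finset.sum_eq_single j]
    · unfold gt
      simp only [Module.Basis.repr_self, Finsupp.single_eq_same, mul_one]
      exact max_le le_rfl (by linarith)
    · intro i _ hij
      unfold gt
      simp [hij.symm]
    · intro h; exact absurd (Finset.mem_univ j) h
  · rw [mem_singleton_iff] at hj
    subst hj
    rw [Finset.sum_eq_single j]
    · unfold gt
      simp only [map_neg, map_smul, Module.Basis.repr_self, Finsupp.coe_neg, Finsupp.coe_smul,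
        Pi.neg_apply, Pi.smul_apply, Finsupp.single_eq_same, smul_eq_mul, mul_one]
      refine max_le (by have := ht j; linarith) ?_
      have : -(t j)⁻¹ * -t j = 1 := by
        have := (ht j).ne'
        field_simp
      rw [this]
    · intro i _ hij
      unfold gt
      simp [hij.symm]
    · intro h; exact absurd (Finset.mem_univ j) h

omit [FiniteDimensional ℝ F] in
theorem ell_le_one (ht : ∀ i, 0 < t i) (σ : Fin e → Bool) {x : F} (hx : x ∈ Cross b t) :
    ell b t σ x ≤ 1 := by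
  refine le_trans ?_ (sum_gt_le b ht hx)
  rw [ell_apply]
  refine Finset.sum_le_sum fun i _ => ?_
  unfold gt
  split_ifs with h
  · rw [one_mul]; exact le_max_left _ _
  · exact le_max_right _ _

omit [FiniteDimensional ℝ F] in
/-- the terms of a maximiser -/
theorem max_terms (ht : ∀ i, 0 < t i) {u x : F} (hx : Mx (Cross b t) u x) (hpos : 0 < ⟪u, x⟫_ℝ) :
    (∀ i, b.repr x i * ⟪u, b i⟫_ℝ = gt b t x i * ⟪u, x⟫_ℝ) ∧ ∑ i, gt b t x i = 1 := by
  classical
  set h := ⟪u, x⟫_ℝ with hh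
  have hv1 : ∀ i, ⟪u, b i⟫_ℝ ≤ h := fun i => hx.2 _ (subset_convexHull ℝ _
    (mem_iUnion.2 ⟨i, Or.inl rfl⟩))
  have hv2 : ∀ i, -(t i * ⟪u, b i⟫_ℝ) ≤ h := fun i => by
    have := hx.2 (-(t i • b i)) (subset_convexHull ℝ _ (mem_iUnion.2 ⟨i, Or.inr rfl⟩))
    rwa [inner_neg_right, inner_smul_right] at this
  have hterm : ∀ i, b.repr x i * ⟪u, b i⟫_ℝ ≤ gt b t x i * h := by
    intro i
    have hti : 0 < (t i)⁻¹ := inv_pos.2 (ht i)
    rcases le_total 0 (b.repr x i) with h1 | h1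
    · calc b.repr x i * ⟪u, b i⟫_ℝ ≤ b.repr x i * h := mul_le_mul_of_nonneg_left (hv1 i) h1
        _ ≤ gt b t x i * h := mul_le_mul_of_nonneg_right (le_max_left _ _) hpos.le
    · have h2 : 0 ≤ -(t i)⁻¹ * b.repr x i := by nlinarith
      have e1 : b.repr x i * ⟪u, b i⟫_ℝ = (-(t i)⁻¹ * b.repr x i) * (-(t i * ⟪u, b i⟫_ℝ)) := by
        have := (ht i).ne'
        field_simp
      rw [e1]
      calc (-(t i)⁻¹ * b.repr x i) * (-(t i * ⟪u, b i⟫_ℝ))
          ≤ (-(t i)⁻¹ * b.repr x i) * h := mul_le_mul_of_nonneg_left (hv2 i) h2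
        _ ≤ gt b t x i * h := mul_le_mul_of_nonneg_right (le_max_right _ _) hpos.le
  have hsum : ∑ i, b.repr x i * ⟪u, b i⟫_ℝ = h := by
    rw [hh]
    conv_rhs => rw [← b.sum_repr x, inner_sum]
    exact Finset.sum_congr rfl fun i _ => (inner_smul_right _ _ _).symm
  have hle : ∑ i, gt b t x i * h ≤ h := by
    rw [← Finset.sum_mul]
    have := mul_le_mul_of_nonneg_right (sum_gt_le b ht hx.1) hpos.le
    linarith
  have hge : h ≤ ∑ i, gt b t x i * h := by
    conv_lhs => rw [← hsum]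
    exact Finset.sum_le_sum fun i _ => hterm i
  have heq : ∑ i, b.repr x i * ⟪u, b i⟫_ℝ = ∑ i, gt b t x i * h := by
    rw [hsum]; exact le_antisymm hge hle
  refine ⟨fun i => (Finset.sum_eq_sum_iff_of_le (fun i _ => hterm i)).1 heq i (Finset.mem_univ i),
    ?_⟩
  have h3 : (∑ i, gt b t x i) * h = 1 * h := by
    rw [Finset.sum_mul, one_mul]; exact le_antisymm hle hge
  exact mul_right_cancel₀ hpos.ne' h3

/-- `σ` is compatible with the signs of the `⟪u, b i⟫`. -/
def Compat (u : F) (σ : Fin e → Bool) : Prop :=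
  ∀ i, (0 < ⟪u, b i⟫_ℝ → σ i = true) ∧ (⟪u, b i⟫_ℝ < 0 → σ i = false)

omit [FiniteDimensional ℝ F] in
theorem exists_compat (u : F) : ∃ σ : Fin e → Bool, Compat b u σ := by
  classical
  refine ⟨fun i => decide (0 < ⟪u, b i⟫_ℝ), fun i => ⟨fun h => by simpa using h, fun h => ?_⟩⟩
  simpa using h.le

omit [FiniteDimensional ℝ F] in
theorem ell_eq_one (ht : ∀ i, 0 < t i) {u x : F} (hx : Mx (Cross b t) u x)
    (hpos : 0 < ⟪u, x⟫_ℝ) {σ : Fin e → Bool} (hσ : ∀ i, b.repr x i ≠ 0 →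
      (0 < ⟪u, b i⟫_ℝ → σ i = true) ∧ (⟪u, b i⟫_ℝ < 0 → σ i = false)) :
    ell b t σ x = 1 := by
  obtain ⟨h1, h2⟩ := max_terms b ht hx hpos
  rw [← h2, ell_apply]
  refine Finset.sum_congr rfl fun i _ => ?_
  have hti : 0 < (t i)⁻¹ := inv_pos.2 (ht i)
  rcases lt_trichotomy (b.repr x i) 0 with h3 | h3 | h3
  · have hg : gt b t x i = -(t i)⁻¹ * b.repr x i := max_eq_right (by nlinarith)
    have hg0 : 0 < gt b t x i := by rw [hg]; nlinarith
    have h4 := h1 i
    have h5 : 0 < gt b t x i * ⟪u, x⟫_ℝ := mul_pos hg0 hpos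
    have h6 : ⟪u, b i⟫_ℝ < 0 := by
      by_contra hc
      push Not at hc
      nlinarith
    rw [(hσ i h3.ne).2 h6, hg]
    simp
  · unfold gt
    rw [h3]; simp
  · have hg : gt b t x i = b.repr x i := max_eq_left (by nlinarith)
    have hg0 : 0 < gt b t x i := by rw [hg]; exact h3
    have h4 := h1 i
    have h5 : 0 < gt b t x i * ⟪u, x⟫_ℝ := mul_pos hg0 hpos
    have h6 : 0 < ⟪u, b i⟫_ℝ := by
      by_contra hc
      push Not at hc
      nlinarith
    rw [(hσ i h3.ne').1 h6, hg]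
    simp

omit [FiniteDimensional ℝ F] in
/-- a coordinate that vanishes on the whole face -/
theorem repr_eq_zero (ht : ∀ i, 0 < t i) {u x : F} (hx : Mx (Cross b t) u x)
    (hpos : 0 < ⟪u, x⟫_ℝ) {i : Fin e} (h1 : ⟪u, b i⟫_ℝ < ⟪u, x⟫_ℝ)
    (h2 : -(t i * ⟪u, b i⟫_ℝ) < ⟪u, x⟫_ℝ) : b.repr x i = 0 := by
  obtain ⟨h3, -⟩ := max_terms b ht hx hpos
  have hti : 0 < (t i)⁻¹ := inv_pos.2 (ht i)
  rcases lt_trichotomy (b.repr x i) 0 with h4 | h4 | h4
  · exfalso
    have hg : gt b t x i = -(t i)⁻¹ * b.repr x i := max_eq_right (by nlinarith)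
    have h5 := h3 i
    rw [hg] at h5
    have h6 : b.repr x i * (t i * ⟪u, b i⟫_ℝ + ⟪u, x⟫_ℝ) = 0 := by
      have h7 : t i * (b.repr x i * ⟪u, b i⟫_ℝ) = t i * (-(t i)⁻¹ * b.repr x i * ⟪u, x⟫_ℝ) := by
        rw [h5]
      have h8 : t i * (-(t i)⁻¹ * b.repr x i * ⟪u, x⟫_ℝ) = - (b.repr x i * ⟪u, x⟫_ℝ) := by
        have := (ht i).ne'
        field_simp
      rw [h8] at h7
      linarith
    rcases mul_eq_zero.1 h6 with h7 | h7
    · linarith
    · linarith
  · exact h4
  · exfalso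
    have hg : gt b t x i = b.repr x i := max_eq_left (by nlinarith)
    have h5 := h3 i
    rw [hg] at h5
    have := mul_left_cancel₀ h4.ne' h5
    linarith

omit [FiniteDimensional ℝ F] in
/-- the facets -/
theorem inner_of_facet {u z : F} {h : ℝ} {σ : Fin e → Bool}
    (h1 : ∀ i, σ i = true → ⟪u, b i⟫_ℝ = h) (h2 : ∀ i, σ i = false → ⟪u, b i⟫_ℝ = -(t i)⁻¹ * h) :
    ⟪u, z⟫_ℝ = h * ell b t σ z := by
  rw [ell_apply, Finset.mul_sum]
  conv_lhs => rw [← b.sum_repr z, inner_sum]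
  refine Finset.sum_congr rfl fun i _ => ?_
  rw [inner_smul_right]
  by_cases hi : σ i = true
  · rw [h1 i hi, if_pos hi]; ring
  · rw [h2 i (by simpa using hi), if_neg hi]; ring

end

end Pool.Agent.V7H52.GX
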