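import Mathlib
import Pool.Agent.V7H52.GX.Cross

set_option autoImplicit false

open Set Filter Topology
open scoped InnerProductSpace

/-!
# The numbers of directions
-/

namespace Pool.Agent.V7H52.GX

section

variable {ι : Type*} [Fintype ι] [DecidableEq ι] {E : ι → Type*} [∀ i, NormedAddCommGroup (E i)]
  [∀ i, InnerProductSpace ℝ (E i)] [∀ i, FiniteDimensional ℝ (E i)] {F : Type*}
  [NormedAddCommGroup F] [InnerProductSpace ℝ F] [FiniteDimensional ℝ F]
  {V : Type*} [NormedAddCommGroup V] [InnerProductSpace ℝ V] [FiniteDimensional ℝ V]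
  (T : Dec ι E F V) {K : Set V} {Γ : ∀ i, Set (E i → E i)}

/-- every nonzero vector has a test vector in `D` -/
def HasTests {E' : Type*} [NormedAddCommGroup E'] [InnerProductSpace ℝ E']
    (G : Set (E' → E')) (D : Finset E') : Prop :=
  0 ∉ D ∧ ∀ u : E', u ≠ 0 → ∃ w ∈ D, Test G u w

open Classical in
/-- vectors adapted to `a` -/
structure Adapted (D : ∀ i, Finset (E i)) (Γ : ∀ i, Set (E i → E i)) (a : V)
    (t : ∀ i, E i) : Prop where
  mem : t ∈ Fintype.piFinset fun i => insert 0 (D i)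
  memD : ∀ i, T.p i a ≠ 0 → t i ∈ D i
  zero : ∀ i, T.p i a = 0 → t i = 0
  test : ∀ i, T.p i a ≠ 0 → Test (Γ i) (T.p i a) (t i)

omit [∀ i, FiniteDimensional ℝ (E i)] [FiniteDimensional ℝ F] [FiniteDimensional ℝ V] in
theorem exists_adapted {D : ∀ i, Finset (E i)} (hD : ∀ i, HasTests (Γ i) (D i)) (a : V) :
    ∃ t, Adapted T D Γ a t := by
  classical
  have h : ∀ i, ∃ t ∈ insert 0 (D i), (T.p i a = 0 → t = 0) ∧
      (T.p i a ≠ 0 → t ∈ D i ∧ Test (Γ i) (T.p i a) t) := by
    intro i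
    by_cases hi : T.p i a = 0
    · exact ⟨0, Finset.mem_insert_self _ _, fun _ => rfl, fun h => absurd hi h⟩
    · obtain ⟨w, hw, h⟩ := (hD i).2 _ hi
      exact ⟨w, Finset.mem_insert_of_mem hw, fun h => absurd h hi, fun _ => ⟨hw, h⟩⟩
  choose t h1 h2 h3 using h
  exact ⟨t, Fintype.mem_piFinset.2 h1, fun i hi => (h3 i hi).1, h2, fun i hi => (h3 i hi).2⟩

omit [∀ i, FiniteDimensional ℝ (E i)] [FiniteDimensional ℝ F] [FiniteDimensional ℝ V] in
theorem Adapted.ne_zero {D : ∀ i, Finset (E i)} (hD : ∀ i, HasTests (Γ i) (D i)) {a : V}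
    {t : ∀ i, E i} (h : Adapted T D Γ a t) {i : ι} (hi : T.p i a ≠ 0) : t ≠ 0 := fun h0 =>
  (hD i).1 (by
    have := h.memD i hi
    rw [h0] at this
    exact this)

omit [∀ i, FiniteDimensional ℝ (E i)] [FiniteDimensional ℝ F] [FiniteDimensional ℝ V] in
theorem Adapted.eq_zero {D : ∀ i, Finset (E i)} {a : V} {t : ∀ i, E i}
    (h : Adapted T D Γ a t) (hi : ∀ i, T.p i a = 0) : t = 0 := funext fun i => h.zero i (hi i)

omit [FiniteDimensional ℝ F] [FiniteDimensional ℝ V] in
theorem Adapted.lim (hΓ : ∀ i, Hom (Γ i)) {D : ∀ i, Finset (E i)} {a : V} {t : ∀ i, E i}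
    (ht : Adapted T D Γ a t)
    (hKc : IsCompact K) (hinv : Inv T K Γ) (𝒰 : Ultrafilter ℕ) {u x : ℕ → V}
    (hu : Tendsto u 𝒰 (𝓝 a)) (hx : ∀ n, Mx K (u n) (x n))
    {w0 : F} (h0 : ∀ y, Mx K a y → (∀ i, T.p i a ≠ 0 → T.p i y = 0) → 0 < ⟪w0, T.q y⟫_ℝ)
    {δ : ℕ → ℝ} (hδ : Tendsto δ 𝒰 (𝓝 0)) (hδ0 : ∀ n, 0 < δ n) :
    ∀ᶠ n in (𝒰 : Filter ℕ), 0 < ∑ i, ⟪t i, T.p i (x n)⟫_ℝ + δ n * ⟪w0, T.q (x n)⟫_ℝ := by
  classical
  refine GX.lim T hΓ hKc hinv 𝒰 hu hx (S := Finset.univ.filter fun i => T.p i a ≠ 0)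
    (c := fun _ _ => 1) (fun _ _ => one_pos) (v := fun i => T.p i a) ?_ ?_ ?_ ?_ hδ hδ0
  · intro i _
    simp only [one_smul]
    exact ((T.p i).continuous.tendsto a).comp hu
  · intro i hi
    exact ht.test i (Finset.mem_filter.1 hi).2
  · intro i hi
    refine ht.zero i ?_
    by_contra h
    exact hi (Finset.mem_filter.2 ⟨Finset.mem_univ i, h⟩)
  · intro y hy h
    exact h0 y hy fun i hi => h i (Finset.mem_filter.2 ⟨Finset.mem_univ i, hi⟩)

open Classical in
omit [∀ i, InnerProductSpace ℝ (E i)] [∀ i, FiniteDimensional ℝ (E i)] in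
theorem card_pi_le (D : ∀ i, Finset (E i)) :
    (Fintype.piFinset fun i => insert 0 (D i)).card ≤ ∏ i, ((D i).card + 1) := by
  classical
  rw [Fintype.card_piFinset]
  exact Finset.prod_le_prod' fun i _ => Finset.card_insert_le _ _

omit [FiniteDimensional ℝ F] in
/-- the bound by the number of the section -/
theorem coreA (hΓ : ∀ i, Hom (Γ i)) (hK : Convex ℝ K) (hKc : IsCompact K)
    (h0 : (0 : V) ∈ interior K)
    (hinv : Inv T K Γ) (hmov : ∀ i, Moving (Γ i)) (D : ∀ i, Finset (E i))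
    (hD : ∀ i, HasTests (Γ i) (D i)) (D0 : Finset F) (hD0n : D0.Nonempty)
    (hD0 : ∀ b : F, b ≠ 0 → ∃ w ∈ D0, ∀ y, Mx (Sec T K) b y → 0 < ⟪w, y⟫_ℝ) :
    ∃ (D' : Finset V) (β : ℝ), D'.card ≤ (∏ i, ((D i).card + 1)) * D0.card ∧ 0 < β ∧
      ∀ u : V, u ≠ 0 → ∃ w ∈ D', ∀ x, Mx K u x → β < ⟪w, x⟫_ℝ := by
  classical
  obtain ⟨D', β, h1, h2, h3⟩ := finish T hKc
    ((Fintype.piFinset fun i => insert 0 (D i)) ×ˢ D0) Prod.fst Prod.snd (by
    refine reduce T _ _ _ fun 𝒰 u a δ hu ha hua hδ hδ0 => ?_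
    obtain ⟨t, ht⟩ := exists_adapted T hD a
    have ha0 : a ≠ 0 := by
      rintro rfl
      rw [norm_zero] at ha
      exact zero_ne_one ha
    obtain ⟨w0, hw0, h⟩ : ∃ w0 ∈ D0, ∀ y, Mx K a y → (∀ i, T.p i a ≠ 0 → T.p i y = 0) →
        0 < ⟪w0, T.q y⟫_ℝ := by
      have hgen : ∀ y, Mx K a y → (∀ i, T.p i a ≠ 0 → T.p i y = 0) →
          Mx (Sec T K) (T.q a) (T.q y) ∧ 0 < ⟪T.q a, T.q y⟫_ℝ := by
        intro y hy hz
        obtain ⟨h4, h5⟩ := max_sec T hK hKc hinv hmov hy fun i => by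
          by_cases hi : T.p i a = 0
          · exact Or.inl hi
          · exact Or.inr (hz i hi)
        exact ⟨h4, h5 ▸ max_pos h0 ha0 hy⟩
      by_cases hqa : T.q a = 0
      · obtain ⟨w0, hw0⟩ := hD0n
        refine ⟨w0, hw0, fun y hy hz => ?_⟩
        have h4 := (hgen y hy hz).2
        rw [hqa, inner_zero_left] at h4
        exact absurd h4 (lt_irrefl _)
      · obtain ⟨w0, hw0, h4⟩ := hD0 _ hqa
        exact ⟨w0, hw0, fun y hy hz => h4 _ (hgen y hy hz).1⟩
    exact ⟨(t, w0), Finset.mem_product.2 ⟨ht.mem, hw0⟩, fun x hx =>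
      ht.lim T hΓ hKc hinv 𝒰 hua hx h hδ hδ0⟩)
  refine ⟨D', β, h1.trans ?_, h2, h3⟩
  rw [Finset.card_product]
  exact Nat.mul_le_mul_right _ (card_pi_le D)

omit [FiniteDimensional ℝ F] in
/-- no vector is a test vector for its negative -/
theorem not_test_neg (hKc : IsCompact K) (h0 : (0 : V) ∈ interior K) (hinv : Inv T K Γ) {i : ι}
    {w : E i} (hw : w ≠ 0) : ¬ Test (Γ i) (-w) w := by
  classical
  intro h
  set a : V := T.glue (Function.update 0 i (-w)) 0 with ha
  have hpa : T.p i a = -w := by rw [ha, T.p_glue, Function.update_self]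
  have ha0 : a ≠ 0 := by
    intro h1
    rw [h1, map_zero] at hpa
    exact hw (neg_eq_zero.1 hpa.symm)
  obtain ⟨x, hx, hmax⟩ := hKc.exists_isMaxOn ⟨0, interior_subset h0⟩
    (f := fun x => ⟪a, x⟫_ℝ) (by fun_prop)
  have hMx : Mx K a x := ⟨hx, fun y hy => hmax hy⟩
  have hpos := max_pos h0 ha0 hMx
  have h1 : ⟪a, x⟫_ℝ = ⟪-w, T.p i x⟫_ℝ := by
    rw [T.inner_eq, Finset.sum_eq_single i, hpa, ha, T.q_glue, inner_zero_left, add_zero]
    · intro j _ hj
      rw [ha, T.p_glue, Function.update_of_ne hj]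
      exact inner_zero_left _
    · intro h; exact absurd (Finset.mem_univ i) h
  rw [h1] at hpos
  have hz : T.p i x ≠ 0 := by
    intro h2
    rw [h2, inner_zero_right] at hpos
    exact lt_irrefl _ hpos
  have h2 := h (T.p i x) hz fun g hg => by
    have := max_block T hinv hg hMx
    rwa [hpa] at this
  rw [inner_neg_left] at hpos
  linarith

/-- if the section is a cross-body then for each sign vector one direction can be left out -/
theorem coreB [Nonempty ι] (hΓ : ∀ i, Hom (Γ i)) (hE : ∀ i, Nontrivial (E i)) (hK : Convex ℝ K)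
    (hKc : IsCompact K) (h0 : (0 : V) ∈ interior K)
    (hinv : Inv T K Γ) (hmov : ∀ i, Moving (Γ i)) (D : ∀ i, Finset (E i))
    (hD : ∀ i, HasTests (Γ i) (D i)) {e : ℕ} (he : 1 ≤ e) (b : Module.Basis (Fin e) ℝ F)
    (r : Fin e → ℝ) (hr : ∀ i, 0 < r i) (hsec : Sec T K = Cross b r) :
    ∃ (D' : Finset V) (β : ℝ), D'.card ≤ (∏ i, ((D i).card + 1) - 1) * 2 ^ e ∧ 0 < β ∧
      ∀ u : V, u ≠ 0 → ∃ w ∈ D', ∀ x, Mx K u x → β < ⟪w, x⟫_ℝ := by
  classical
  -- the general step
  suffices hmain : ∃ k : (Fin e → Bool) → (∀ i, E i), (∀ σ, k σ ∈ Fintype.piFinset fun i =>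
      insert 0 (D i)) ∧ ∀ (𝒰 : Ultrafilter ℕ) (u : ℕ → V) (a : V) (δ : ℕ → ℝ),
      (∀ n, ‖u n‖ = 1) → ‖a‖ = 1 →
      Tendsto u 𝒰 (𝓝 a) → Tendsto δ 𝒰 (𝓝 0) → (∀ n, 0 < δ n) →
      ∃ t ∈ Fintype.piFinset fun i => insert 0 (D i), ∃ σ : Fin e → Bool, t ≠ k σ ∧
        ∀ x : ℕ → V, (∀ n, Mx K (u n) (x n)) →
        ∀ᶠ n in (𝒰 : Filter ℕ), 0 < ∑ i, ⟪t i, T.p i (x n)⟫_ℝ +
          δ n * ⟪nrm b r σ, T.q (x n)⟫_ℝ by
    obtain ⟨k, hk, hmain⟩ := hmain
    obtain ⟨D', β, h1, h2, h3⟩ := finish T hKc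
      (((Fintype.piFinset fun i => insert 0 (D i)) ×ˢ
      (Finset.univ : Finset (Fin e → Bool))) \ Finset.univ.image fun σ => (k σ, σ))
      Prod.fst (fun k => nrm b r k.2) (by
      refine reduce T _ _ _ fun 𝒰 u a δ hu ha hua hδ hδ0 => ?_
      obtain ⟨t, ht, σ, hne, h⟩ := hmain 𝒰 u a δ hu ha hua hδ hδ0
      refine ⟨(t, σ), Finset.mem_sdiff.2 ⟨Finset.mem_product.2 ⟨ht, Finset.mem_univ _⟩, ?_⟩, h⟩
      intro hmem
      obtain ⟨τ, -, hτ⟩ := Finset.mem_image.1 hmem
      have h4 : τ = σ := congrArg Prod.snd hτ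
      have h5 : k τ = t := congrArg Prod.fst hτ
      rw [h4] at h5
      exact hne h5.symm)
    refine ⟨D', β, h1.trans ?_, h2, h3⟩
    have hsub : (Finset.univ.image fun σ => (k σ, σ)) ⊆ (Fintype.piFinset fun i =>
        insert 0 (D i)) ×ˢ (Finset.univ : Finset (Fin e → Bool)) := by
      intro x hx
      obtain ⟨σ, -, rfl⟩ := Finset.mem_image.1 hx
      exact Finset.mem_product.2 ⟨hk σ, Finset.mem_univ _⟩
    have hcard : (Finset.univ.image fun σ : Fin e → Bool => (k σ, σ)).card = 2 ^ e := by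
      rw [Finset.card_image_of_injective _ fun σ τ h => congrArg Prod.snd h, Finset.card_univ,
        Fintype.card_fun, Fintype.card_bool, Fintype.card_fin]
    rw [Finset.card_sdiff_of_subset hsub, hcard, Finset.card_product, Finset.card_univ,
      Fintype.card_fun, Fintype.card_bool, Fintype.card_fin, Nat.sub_mul, one_mul]
    exact Nat.sub_le_sub_right (Nat.mul_le_mul_right _ (card_pi_le D)) _
  -- facts on the section
  have hgen : ∀ u y : V, u ≠ 0 → Mx K u y → (∀ i, T.p i u ≠ 0 → T.p i y = 0) →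
      Mx (Cross b r) (T.q u) (T.q y) ∧ 0 < ⟪T.q u, T.q y⟫_ℝ ∧ ⟪u, y⟫_ℝ = ⟪T.q u, T.q y⟫_ℝ := by
    intro u y hu hy hz
    obtain ⟨h4, h5⟩ := max_sec T hK hKc hinv hmov hy fun i => by
      by_cases hi : T.p i u = 0
      · exact Or.inl hi
      · exact Or.inr (hz i hi)
    rw [hsec] at h4
    exact ⟨h4, h5 ▸ max_pos h0 hu hy, h5⟩
  have hone : ∀ u y : V, u ≠ 0 → Mx K u y → (∀ i, T.p i u ≠ 0 → T.p i y = 0) →
      ∀ σ, Compat b (T.q u) σ → ell b r σ (T.q y) = 1 := by
    intro u y hu hy hz σ hσ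
    obtain ⟨h4, h5, -⟩ := hgen u y hu hy hz
    exact ell_eq_one b hr h4 h5 fun i _ => hσ i
  -- two different vectors
  obtain ⟨i1⟩ := ‹Nonempty ι›
  have := hE i1
  obtain ⟨z1, hz1⟩ := exists_ne (0 : E i1)
  obtain ⟨w1, hw1, hwt1⟩ := (hD i1).2 z1 hz1
  have hw10 : w1 ≠ 0 := fun h => (hD i1).1 (h ▸ hw1)
  obtain ⟨w2, hw2, hwt2⟩ := (hD i1).2 (-w1) (neg_ne_zero.2 hw10)
  have hw20 : w2 ≠ 0 := fun h => (hD i1).1 (h ▸ hw2)
  have hw12 : w1 ≠ w2 := by
    rintro rfl
    exact not_test_neg T hKc h0 hinv hw10 hwt2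
  have hsingle : ∀ (i : ι) (w : E i), w ∈ D i → Function.update (0 : ∀ i, E i) i w ∈
      Fintype.piFinset fun i => insert 0 (D i) := by
    intro i w hw
    refine Fintype.mem_piFinset.2 fun j => ?_
    by_cases hj : j = i
    · subst hj; rw [Function.update_self]; exact Finset.mem_insert_of_mem hw
    · rw [Function.update_of_ne hj]; exact Finset.mem_insert_self _ _
  have hsingle0 : ∀ (i : ι) (w : E i), w ∈ D i → Function.update (0 : ∀ i, E i) i w ≠ 0 := by
    intro i w hw h
    have h1 := congrFun h i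
    rw [Function.update_self] at h1
    exact (hD i).1 (by rw [Pi.zero_apply] at h1; exact h1 ▸ hw)
  -- the parity
  set par : (Fin e → Bool) → Bool := fun σ => decide (Even (Finset.univ.filter fun i =>
    σ i = true).card) with hpar
  set ws : Bool → (∀ i, E i) := fun c => if c = true then Function.update 0 i1 w1 else
    Function.update 0 i1 w2 with hws
  have hws_inj : ∀ c c' : Bool, ws c = ws c' → c = c' := by
    intro c c' h
    have h1 : w1 ≠ w2 := hw12
    have h2 := congrFun h i1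
    cases c <;> cases c' <;> simp [hws] at h2 ⊢
    · exact h1 h2.symm
    · exact h1 h2
  have hws_mem : ∀ c, ws c ∈ Fintype.piFinset fun i => insert 0 (D i) := by
    intro c
    cases c
    · simpa [hws] using hsingle i1 w2 hw2
    · simpa [hws] using hsingle i1 w1 hw1
  have hws_ne : ∀ c, ws c ≠ 0 := by
    intro c
    cases c
    · simpa [hws] using hsingle0 i1 w2 hw2
    · simpa [hws] using hsingle0 i1 w1 hw1
  have hflip : ∀ (σ : Fin e → Bool) (j : Fin e), par (Function.update σ j (!(σ j))) ≠ par σ := by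
    intro σ j
    have h1 : (Finset.univ.filter fun i => σ i = true).erase j =
        (Finset.univ.filter fun i => Function.update σ j (!(σ j)) i = true).erase j := by
      ext i
      simp only [Finset.mem_erase, Finset.mem_filter, Finset.mem_univ, true_and]
      constructor
      · rintro ⟨h2, h3⟩; exact ⟨h2, by rw [Function.update_of_ne h2]; exact h3⟩
      · rintro ⟨h2, h3⟩; exact ⟨h2, by rw [Function.update_of_ne h2] at h3; exact h3⟩
    have h2 : (Finset.univ.filter fun i => σ i = true).card +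
        (Finset.univ.filter fun i => Function.update σ j (!(σ j)) i = true).card =
        2 * ((Finset.univ.filter fun i => σ i = true).erase j).card + 1 := by
      by_cases hj : σ j = true
      · have h3 : j ∈ Finset.univ.filter fun i => σ i = true := by simp [hj]
        have h4 : j ∉ Finset.univ.filter fun i => Function.update σ j (!(σ j)) i = true := by
          simp [hj]
        have h5 := Finset.card_erase_add_one h3
        have h6 := Finset.erase_eq_of_notMem h4
        rw [← h6, ← h1]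
        omega
      · have h3 : j ∉ Finset.univ.filter fun i => σ i = true := by simp [hj]
        have h4 : j ∈ Finset.univ.filter fun i => Function.update σ j (!(σ j)) i = true := by
          simp [hj]
        have h5 := Finset.card_erase_add_one h4
        have h6 := Finset.erase_eq_of_notMem h3
        rw [← h1] at h5
        rw [h6] at h5 ⊢
        omega
    intro h3
    rw [hpar] at h3
    simp only [decide_eq_decide] at h3
    have h4 : ¬ Even ((Finset.univ.filter fun i => σ i = true).card +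
        (Finset.univ.filter fun i => Function.update σ j (!(σ j)) i = true).card) := by
      rw [h2]
      simp
    exact h4 (Nat.even_add.2 h3.symm)
  -- the directions that are left out
  set thin : (Fin e → Bool) → Prop := fun σ => ∃ i0 : ι, ∀ y ∈ K, ell b r σ (T.q y) = 1 →
    T.p i0 y = 0 with hthin
  set k : (Fin e → Bool) → (∀ i, E i) := fun σ => if thin σ then 0 else ws (par σ) with hk
  refine ⟨k, fun σ => ?_, fun 𝒰 u a δ hu ha hua hδ hδ0 => ?_⟩
  · rw [hk]
    simp only
    split_ifs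
    · exact Fintype.mem_piFinset.2 fun i => Finset.mem_insert_self _ _
    · exact hws_mem _
  have ha0 : a ≠ 0 := by
    rintro rfl
    rw [norm_zero] at ha
    exact zero_ne_one ha
  have hu0 : ∀ n, u n ≠ 0 := by
    intro n h
    have := hu n
    rw [h, norm_zero] at this
    exact zero_ne_one this
  obtain ⟨t, ht⟩ := exists_adapted T hD a
  by_cases hblk : ∃ i, T.p i a ≠ 0
  · -- with a block part
    obtain ⟨i, hi⟩ := hblk
    have ht0 : t ≠ 0 := ht.ne_zero T hD hi
    suffices hτ : ∃ τ, t ≠ k τ ∧ ∀ y, Mx K a y → (∀ i, T.p i a ≠ 0 → T.p i y = 0) →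
        ell b r τ (T.q y) = 1 by
      obtain ⟨τ, hτ1, hτ2⟩ := hτ
      refine ⟨t, ht.mem, τ, hτ1, fun x hx =>
        ht.lim T hΓ hKc hinv 𝒰 hua hx (fun y hy hz => ?_) hδ hδ0⟩
      rw [inner_nrm, hτ2 y hy hz]
      exact one_pos
    have hkt : ∀ τ, thin τ → t ≠ k τ := by
      intro τ hτ h
      rw [hk] at h
      simp only [if_pos hτ] at h
      exact ht0 h
    have htwo : ∀ (τ : Fin e → Bool) (j : Fin e), t = k τ →
        t ≠ k (Function.update τ j (!(τ j))) := by
      intro τ j h1 h2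
      have h3 : ¬ thin τ := fun h => hkt τ h h1
      have h4 : ¬ thin (Function.update τ j (!(τ j))) := fun h => hkt _ h h2
      rw [h1, hk] at h2
      simp only [if_neg h3, if_neg h4] at h2
      exact hflip τ j (hws_inj _ _ h2).symm
    obtain ⟨σ, hσ⟩ := exists_compat b (T.q a)
    by_cases hex : ∃ y, Mx K a y ∧ ∀ i, T.p i a ≠ 0 → T.p i y = 0
    swap
    · by_cases h1 : t = k σ
      · exact ⟨_, htwo σ ⟨0, he⟩ h1, fun y hy hz => absurd ⟨y, hy, hz⟩ hex⟩
      · exact ⟨σ, h1, fun y hy hz => absurd ⟨y, hy, hz⟩ hex⟩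
    obtain ⟨y0, hy0, hz0'⟩ := hex
    obtain ⟨hm0, hp0, he0⟩ := hgen a y0 ha0 hy0 hz0'
    by_cases h1 : t = k σ
    swap
    · exact ⟨σ, h1, fun y hy hz => hone a y ha0 hy hz σ hσ⟩
    have hnt : ¬ thin σ := fun h => hkt σ h h1
    set h := ⟪a, y0⟫_ℝ with hh
    by_cases hlow : ∃ j, ⟪T.q a, b j⟫_ℝ < h ∧ -(r j * ⟪T.q a, b j⟫_ℝ) < h
    · -- a coordinate vanishes on the face
      obtain ⟨j, hj1, hj2⟩ := hlow
      refine ⟨_, htwo σ j h1, fun y hy hz => ?_⟩
      obtain ⟨h4, h5, h6⟩ := hgen a y ha0 hy hz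
      have hyh : ⟪T.q a, T.q y⟫_ℝ = h := by
        rw [← h6, hh]
        exact le_antisymm (hy0.2 y hy.1) (hy.2 y0 hy0.1)
      have hzero : b.repr (T.q y) j = 0 := by
        refine repr_eq_zero b hr h4 h5 (hyh ▸ hj1) ?_
        rw [hyh]; exact hj2
      refine ell_eq_one b hr h4 h5 fun k hk => ?_
      have hkj : k ≠ j := fun hkj => hk (hkj ▸ hzero)
      rw [Function.update_of_ne hkj]
      exact hσ k
    · -- the face of the section is a facet: impossible
      exfalso
      push Not at hlow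
      have hup1 : ∀ j, ⟪T.q a, b j⟫_ℝ ≤ h := fun j => by
        rw [he0]
        exact hm0.2 _ (subset_convexHull ℝ _ (mem_iUnion.2 ⟨j, Or.inl rfl⟩))
      have hup2 : ∀ j, -(r j * ⟪T.q a, b j⟫_ℝ) ≤ h := fun j => by
        have := hm0.2 (-(r j • b j)) (subset_convexHull ℝ _ (mem_iUnion.2 ⟨j, Or.inr rfl⟩))
        rw [inner_neg_right, inner_smul_right] at this
        rw [he0]; exact this
      have hpos : 0 < h := by rw [he0]; exact hp0
      have hall1 : ∀ j, σ j = true → ⟪T.q a, b j⟫_ℝ = h := by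
        intro j hj
        have h2 : 0 ≤ ⟪T.q a, b j⟫_ℝ := by
          by_contra hneg
          push Not at hneg
          have := (hσ j).2 hneg
          rw [hj] at this
          exact absurd this (by simp)
        refine le_antisymm (hup1 j) ?_
        by_contra hcon
        push Not at hcon
        have h3 := hlow j hcon
        have h4 := mul_nonneg (hr j).le h2
        linarith
      have hall2 : ∀ j, σ j = false → ⟪T.q a, b j⟫_ℝ = -(r j)⁻¹ * h := by
        intro j hj
        have h2 : ⟪T.q a, b j⟫_ℝ ≤ 0 := by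
          by_contra hneg
          push Not at hneg
          have := (hσ j).1 hneg
          rw [hj] at this
          exact absurd this (by simp)
        have h3 := hlow j (lt_of_le_of_lt h2 hpos)
        have h4 : -(r j * ⟪T.q a, b j⟫_ℝ) = h := le_antisymm (hup2 j) h3
        have h5 := (hr j).ne'
        field_simp
        linarith
      have hthick : ∃ y ∈ K, ell b r σ (T.q y) = 1 ∧ T.p i y ≠ 0 := by
        by_contra hcon
        push Not at hcon
        exact hnt ⟨i, hcon⟩
      obtain ⟨y, hyK, hy1, hy2⟩ := hthick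
      -- only the block `i` of `y`
      set y' : V := T.glue (Function.update 0 i (T.p i y)) (T.q y) with hy'
      have hy'K : y' ∈ K := by
        refine zero_many T hK hKc hinv hmov (Finset.univ.erase i) y hyK y' (fun j hj => ?_)
          (fun j hj => ?_) (T.q_glue _ _)
        · rw [hy', T.p_glue, Function.update_of_ne (Finset.ne_of_mem_erase hj)]; rfl
        · have hji : j = i := by
            by_contra hji
            exact hj (Finset.mem_erase.2 ⟨hji, Finset.mem_univ j⟩)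
          subst hji
          rw [hy', T.p_glue, Function.update_self]
      obtain ⟨g, hg, hgp⟩ := hmov i (T.p i a) (T.p i y) hi hy2
      set y'' : V := T.glue (Function.update 0 i (g (T.p i y))) (T.q y) with hy''
      have hy''K : y'' ∈ K := by
        refine hinv i g hg y' hy'K y'' ?_ (fun j hj => ?_) ?_
        · rw [hy', hy'', T.p_glue, T.p_glue, Function.update_self, Function.update_self]
        · rw [hy', hy'', T.p_glue, T.p_glue, Function.update_of_ne hj, Function.update_of_ne hj]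
        · rw [hy', hy'', T.q_glue, T.q_glue]
      have h1 := hy0.2 y'' hy''K
      rw [T.inner_eq a y'', hy'', T.q_glue, ← hh] at h1
      have h2 : ∑ j, ⟪T.p j a, T.p j (T.glue (Function.update 0 i (g (T.p i y))) (T.q y))⟫_ℝ =
          ⟪T.p i a, g (T.p i y)⟫_ℝ := by
        rw [Finset.sum_eq_single i]
        · rw [T.p_glue, Function.update_self]
        · intro j _ hj
          rw [T.p_glue, Function.update_of_ne hj]
          exact inner_zero_right _
        · intro h; exact absurd (Finset.mem_univ i) h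
      have h3 : ⟪T.q a, T.q y⟫_ℝ = h * ell b r σ (T.q y) := inner_of_facet b hall1 hall2
      rw [h2, h3, hy1] at h1
      linarith
  -- without block part
  push Not at hblk
  have hqu : Tendsto (fun n => T.q (u n)) 𝒰 (𝓝 (T.q a)) := (T.q.continuous.tendsto a).comp hua
  -- the eventual sign pattern
  obtain ⟨σ, hσ⟩ : ∃ σ : Fin e → Bool, ∀ᶠ n in (𝒰 : Filter ℕ), Compat b (T.q (u n)) σ := by
    have h1 : ∀ᶠ n in (𝒰 : Filter ℕ), ∃ σ : Fin e → Bool, Compat b (T.q (u n)) σ :=
      Eventually.of_forall fun n => exists_compat b _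
    exact Ultrafilter.eventually_exists_iff.1 h1
  have hσa : Compat b (T.q a) σ := by
    intro i
    have h2 : Tendsto (fun n => ⟪T.q (u n), b i⟫_ℝ) 𝒰 (𝓝 ⟪T.q a, b i⟫_ℝ) :=
      hqu.inner tendsto_const_nhds
    constructor
    · intro h3
      obtain ⟨n, h4, h5⟩ := (hσ.and (h2.eventually_const_lt h3)).exists
      exact (h4 i).1 h5
    · intro h3
      obtain ⟨n, h4, h5⟩ := (hσ.and (h2.eventually_lt_const h3)).exists
      exact (h4 i).2 h5
  by_cases hth : thin σ
  swap
  · -- thick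
    refine ⟨t, ht.mem, σ, fun h => ?_, fun x hx =>
      ht.lim T hΓ hKc hinv 𝒰 hua hx (fun y hy hz => ?_) hδ hδ0⟩
    · rw [ht.eq_zero T hblk, hk] at h
      simp only [if_neg hth] at h
      exact hws_ne _ h.symm
    · rw [inner_nrm, hone a y ha0 hy hz σ hσa]
      exact one_pos
  have hkσ : k σ = 0 := by rw [hk]; simp only [if_pos hth]
  obtain ⟨i0, hi0⟩ := hth
  by_cases hz : ∀ᶠ n in (𝒰 : Filter ℕ), ∀ i, T.p i (u n) = 0
  · -- no block part
    have := hE i0
    obtain ⟨z, hz0⟩ := exists_ne (0 : E i0)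
    obtain ⟨w, hw, hwt⟩ := (hD i0).2 z hz0
    refine ⟨Function.update 0 i0 w, hsingle i0 w hw, σ, ?_, fun x hx => ?_⟩
    · rw [hkσ]; exact hsingle0 i0 w hw
    · filter_upwards [hz, hσ] with n h1 h2
      have h3 := hone (u n) (x n) (hu0 n) (hx n) (fun i hi => absurd (h1 i) hi) σ h2
      have h4 := hi0 (x n) (hx n).1 h3
      rw [inner_nrm, h3, Finset.sum_eq_zero, zero_add, mul_one]
      · exact hδ0 n
      · intro i _
        by_cases hi : i = i0
        · subst hi; rw [h4, inner_zero_right]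
        · rw [Function.update_of_ne hi]; exact inner_zero_left _
  · -- a block part that tends to zero
    rw [← Ultrafilter.eventually_not] at hz
    push Not at hz
    obtain ⟨j, hj⟩ := Ultrafilter.eventually_exists_iff.1 hz
    set c : ℕ → ι → ℝ := fun n i => if T.p i (u n) = 0 then 1 else ‖T.p i (u n)‖⁻¹ with hc
    have hc0 : ∀ n i, 0 < c n i := by
      intro n i
      rw [hc]
      simp only
      split_ifs with h
      · exact one_pos
      · exact inv_pos.2 (norm_pos_iff.2 h)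
    set S : Finset ι := Finset.univ.filter fun i => ∀ᶠ n in (𝒰 : Filter ℕ), T.p i (u n) ≠ 0
      with hS
    have hv : ∀ i, ∃ v : E i, i ∈ S → v ≠ 0 ∧
        Tendsto (fun n => c n i • T.p i (u n)) 𝒰 (𝓝 v) := by
      intro i
      by_cases hi : i ∈ S
      · have hi' := (Finset.mem_filter.1 hi).2
        obtain ⟨v, hv1, hv2⟩ := (isCompact_sphere (0 : E i) 1).ultrafilter_le_nhds
          (𝒰.map fun n => c n i • T.p i (u n)) (le_principal_iff.2 (by
            have : ∀ᶠ n in (𝒰 : Filter ℕ), c n i • T.p i (u n) ∈ Metric.sphere (0 : E i) 1 := by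
              filter_upwards [hi'] with n hn
              rw [mem_sphere_zero_iff_norm, hc]
              simp only
              rw [if_neg hn, norm_smul, norm_inv, norm_norm,
                inv_mul_cancel₀ (norm_ne_zero_iff.2 hn)]
            exact this))
        refine ⟨v, fun _ => ⟨?_, hv2⟩⟩
        rintro rfl
        rw [mem_sphere_zero_iff_norm, norm_zero] at hv1
        exact zero_ne_one hv1
      · exact ⟨0, fun h => absurd h hi⟩
    choose v hv using hv
    have hw : ∀ i, ∃ w ∈ insert 0 (D i), (i ∈ S → w ∈ D i ∧ Test (Γ i) (v i) w) ∧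
        (i ∉ S → w = 0) := by
      intro i
      by_cases hi : i ∈ S
      · obtain ⟨w, hw, h⟩ := (hD i).2 (v i) (hv i hi).1
        exact ⟨w, Finset.mem_insert_of_mem hw, fun _ => ⟨hw, h⟩, fun h => absurd hi h⟩
      · exact ⟨0, Finset.mem_insert_self _ _, fun h => absurd h hi, fun _ => rfl⟩
    choose w hw1 hw2 hw3 using hw
    have hjS : j ∈ S := Finset.mem_filter.2 ⟨Finset.mem_univ j, hj⟩
    refine ⟨w, Fintype.mem_piFinset.2 hw1, σ, ?_, fun x hx => ?_⟩
    · rw [hkσ]
      intro h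
      have h1 := congrFun h j
      rw [Pi.zero_apply] at h1
      exact (hD j).1 (h1 ▸ (hw2 j hjS).1)
    · refine GX.lim T hΓ hKc hinv 𝒰 hua hx hc0 (fun i hi => (hv i hi).2)
        (fun i hi => (hw2 i hi).2) hw3 (fun y hy _ => ?_) hδ hδ0
      rw [inner_nrm, hone a y ha0 hy (fun i hi => absurd (hblk i) hi) σ hσa]
      exact one_pos

end

end Pool.Agent.V7H52.GX
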