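import Mathlib
import Pool.Agent.V7H52.GX.Count

set_option autoImplicit false

open Set Filter Topology
open scoped InnerProductSpace

/-!
# The bounds, for an arbitrary interior point
-/

namespace Pool.Agent.V7H52.GX

/-- Some `N` hyperplanes `{x | ⟪w i, x⟫ = b i}` are such that every face of `K` (the set of the
points `x` of `K` at which `⟪u, x⟫` is maximal, `u ≠ 0`) is strictly separated from `o` by one of
them. -/
def SeparatedBy {V : Type*} [NormedAddCommGroup V] [InnerProductSpace ℝ V] (K : Set V) (o : V)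
    (N : ℕ) : Prop :=
  ∃ (w : Fin N → V) (b : Fin N → ℝ), ∀ u x₀ : V, u ≠ 0 → x₀ ∈ K →
    (∀ y ∈ K, ⟪u, y⟫_ℝ ≤ ⟪u, x₀⟫_ℝ) →
      ∃ i, ⟪w i, o⟫_ℝ < b i ∧ ∀ x ∈ K, ⟪u, x⟫_ℝ = ⟪u, x₀⟫_ℝ → b i < ⟪w i, x⟫_ℝ

theorem SeparatedBy.mono {V : Type*} [NormedAddCommGroup V] [InnerProductSpace ℝ V] {K : Set V}
    {o : V} {N M : ℕ} (h : SeparatedBy K o N) (hNM : N ≤ M) : SeparatedBy K o M := by
  obtain ⟨w, b, h⟩ := h
  refine ⟨fun i => if hi : (i : ℕ) < N then w ⟨i, hi⟩ else 0,
    fun i => if hi : (i : ℕ) < N then b ⟨i, hi⟩ else 0, fun u x₀ hu hx hm => ?_⟩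
  obtain ⟨i, h1, h2⟩ := h u x₀ hu hx hm
  refine ⟨⟨i, i.2.trans_le hNM⟩, ?_, ?_⟩
  · simpa using h1
  · intro x hxK hxe
    simpa using h2 x hxK hxe

theorem SeparatedBy.of_dirs {V : Type*} [NormedAddCommGroup V] [InnerProductSpace ℝ V]
    {K : Set V} {N : ℕ} (h : ∃ (D : Finset V) (β : ℝ), D.card ≤ N ∧ 0 < β ∧
      ∀ u : V, u ≠ 0 → ∃ w ∈ D, ∀ x, Mx K u x → β < ⟪w, x⟫_ℝ) : SeparatedBy K 0 N := by
  classical
  obtain ⟨D, β, hD, hβ, h⟩ := h
  refine ⟨fun i => D.toList.getD i 0, fun _ => β, fun u x₀ hu hx₀ hmax => ?_⟩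
  obtain ⟨t, ht, h4⟩ := h u hu
  obtain ⟨i, hi, hit⟩ := List.getElem_of_mem (Finset.mem_toList.2 ht)
  have hiN : i < N := by
    rw [Finset.length_toList] at hi
    omega
  have h5 : D.toList.getD i 0 = t := by
    rw [List.getD_eq_getElem _ _ hi, hit]
  refine ⟨⟨i, hiN⟩, by rw [inner_zero_right]; exact hβ, fun x hx hxu => ?_⟩
  simp only [h5]
  exact h4 x ⟨hx, fun y hy => (hmax y hy).trans hxu.ge⟩

theorem SeparatedBy.dirs {V : Type*} [NormedAddCommGroup V] [InnerProductSpace ℝ V]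
    [Nontrivial V] {K : Set V} (hKc : IsCompact K) (hne : K.Nonempty) {N : ℕ}
    (h : SeparatedBy K 0 N) : 1 ≤ N ∧ ∃ D : Finset V, D.Nonempty ∧ D.card ≤ N ∧
      ∀ b : V, b ≠ 0 → ∃ w ∈ D, ∀ y, Mx K b y → 0 < ⟪w, y⟫_ℝ := by
  classical
  obtain ⟨w, b, h⟩ := h
  have hex : ∀ u : V, u ≠ 0 → ∃ i, ∀ y, Mx K u y → 0 < ⟪w i, y⟫_ℝ := by
    intro u hu
    obtain ⟨x₀, hx₀, hmax⟩ := hKc.exists_isMaxOn hne (f := fun x => ⟪u, x⟫_ℝ) (by fun_prop)
    obtain ⟨i, h1, h2⟩ := h u x₀ hu hx₀ fun y hy => hmax hy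
    refine ⟨i, fun y hy => ?_⟩
    have h3 := h2 y hy.1 (le_antisymm (hmax hy.1) (hy.2 x₀ hx₀))
    rw [inner_zero_right] at h1
    exact h1.trans h3
  obtain ⟨u, hu⟩ := exists_ne (0 : V)
  obtain ⟨i, -⟩ := hex u hu
  refine ⟨(Nat.zero_le _).trans_lt i.2, Finset.univ.image w, ⟨w i, Finset.mem_image_of_mem _
    (Finset.mem_univ _)⟩, Finset.card_image_le.trans (by simp), fun b hb => ?_⟩
  obtain ⟨j, hj⟩ := hex b hb
  exact ⟨w j, Finset.mem_image_of_mem _ (Finset.mem_univ _), hj⟩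

theorem separatedBy_shift {V : Type*} [NormedAddCommGroup V] [InnerProductSpace ℝ V]
    {K : Set V} {o : V} {N : ℕ} : SeparatedBy ((fun x => x + o) ⁻¹' K) 0 N ↔ SeparatedBy K o N := by
  constructor
  · rintro ⟨w, b, h⟩
    refine ⟨w, fun i => b i + ⟪w i, o⟫_ℝ, fun u x₀ hu hx₀ hmax => ?_⟩
    obtain ⟨i, h1, h2⟩ := h u (x₀ - o) hu (by simpa using hx₀) (by
      intro y hy
      have := hmax (y + o) hy
      rw [inner_add_right] at this
      rw [inner_sub_right]
      linarith)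
    refine ⟨i, ?_, fun x hx hxe => ?_⟩
    · rw [inner_zero_right] at h1
      simp only
      linarith
    · have h3 := h2 (x - o) (by simpa using hx) (by
        rw [inner_sub_right, inner_sub_right, hxe])
      rw [inner_sub_right] at h3
      simp only
      linarith
  · rintro ⟨w, b, h⟩
    refine ⟨w, fun i => b i - ⟪w i, o⟫_ℝ, fun u x₀ hu hx₀ hmax => ?_⟩
    obtain ⟨i, h1, h2⟩ := h u (x₀ + o) hu hx₀ (by
      intro y hy
      have := hmax (y - o) (by simpa using hy)
      rw [inner_sub_right] at this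
      rw [inner_add_right]
      linarith)
    refine ⟨i, ?_, fun x hx hxe => ?_⟩
    · rw [inner_zero_right]
      simp only
      linarith
    · have h3 := h2 (x + o) hx (by
        rw [inner_add_right, inner_add_right, hxe])
      rw [inner_add_right] at h3
      simp only
      linarith

section

variable {ι : Type*} [Fintype ι] [DecidableEq ι] {E : ι → Type*} [∀ i, NormedAddCommGroup (E i)]
  [∀ i, InnerProductSpace ℝ (E i)] [∀ i, FiniteDimensional ℝ (E i)] {F : Type*}
  [NormedAddCommGroup F] [InnerProductSpace ℝ F] [FiniteDimensional ℝ F]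
  {V : Type*} [NormedAddCommGroup V] [InnerProductSpace ℝ V] [FiniteDimensional ℝ V]
  (T : Dec ι E F V) {K : Set V} {Γ : ∀ i, Set (E i → E i)}

/-- Invariance about `o`. -/
def InvAt (K : Set V) (o : V) (Γ : ∀ i, Set (E i → E i)) : Prop :=
  ∀ i, ∀ g ∈ Γ i, ∀ x ∈ K, ∀ y, T.p i y - T.p i o = g (T.p i x - T.p i o) →
    (∀ j, j ≠ i → T.p j y = T.p j x) → T.q y = T.q x → y ∈ K

/-- The section through `o`. -/
def SecAt (K : Set V) (o : V) : Set F := {b | T.glue (fun i => T.p i o) b ∈ K}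

omit [∀ i, FiniteDimensional ℝ (E i)] [FiniteDimensional ℝ F] [FiniteDimensional ℝ V] in
theorem inv_shift {o : V} (h : InvAt T K o Γ) : Inv T ((fun x => x + o) ⁻¹' K) Γ := by
  intro i g hg x hx y h1 h2 h3
  refine h i g hg (x + o) hx (y + o) ?_ (fun j hj => ?_) ?_
  · rw [map_add, map_add, add_sub_cancel_right, add_sub_cancel_right, h1]
  · rw [map_add, map_add, h2 j hj]
  · rw [map_add, map_add, h3]

omit [DecidableEq ι] [∀ i, FiniteDimensional ℝ (E i)] [FiniteDimensional ℝ F]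
  [FiniteDimensional ℝ V] in
theorem sec_shift (o : V) :
    Sec T ((fun x => x + o) ⁻¹' K) = (fun b => b + T.q o) ⁻¹' SecAt T K o := by
  ext b
  have h : T.glue 0 b + o = T.glue (fun i => T.p i o) (b + T.q o) := by
    refine T.ext (fun i => ?_) ?_
    · rw [map_add, T.p_glue, T.p_glue, Pi.zero_apply, zero_add]
    · rw [map_add, T.q_glue, T.q_glue]
  show T.glue 0 b + o ∈ K ↔ T.glue (fun i => T.p i o) (b + T.q o) ∈ K
  rw [h]

omit [DecidableEq ι] [∀ i, FiniteDimensional ℝ (E i)] [FiniteDimensional ℝ F]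
  [FiniteDimensional ℝ V] in
theorem glue_sub (a : ∀ i, E i) (b b' : F) : T.glue a b - T.glue a b' = T.glue 0 (b - b') := by
  refine T.ext (fun i => ?_) ?_
  · rw [map_sub, T.p_glue, T.p_glue, T.p_glue, sub_self]; rfl
  · rw [map_sub, T.q_glue, T.q_glue, T.q_glue]

omit [DecidableEq ι] [∀ i, FiniteDimensional ℝ (E i)] [FiniteDimensional ℝ F]
  [FiniteDimensional ℝ V] in
theorem glue_isometry (a : ∀ i, E i) : Isometry (T.glue a) := by
  refine Isometry.of_dist_eq fun b b' => ?_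
  rw [dist_eq_norm, dist_eq_norm, glue_sub, ← sq_eq_sq₀ (norm_nonneg _) (norm_nonneg _),
    ← real_inner_self_eq_norm_sq, ← real_inner_self_eq_norm_sq, T.inner_eq, T.q_glue,
    Finset.sum_eq_zero, zero_add]
  intro i _
  rw [T.p_glue]; exact inner_zero_left _

omit [DecidableEq ι] [∀ i, FiniteDimensional ℝ (E i)] [FiniteDimensional ℝ F]
  [FiniteDimensional ℝ V] in
theorem secAt_convex (hK : Convex ℝ K) (o : V) : Convex ℝ (SecAt T K o) := by
  intro b hb b' hb' α β hα hβ hαβ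
  have h : T.glue (fun i => T.p i o) (α • b + β • b') =
      α • T.glue (fun i => T.p i o) b + β • T.glue (fun i => T.p i o) b' := by
    refine T.ext (fun i => ?_) ?_
    · rw [map_add, map_smul, map_smul, T.p_glue, T.p_glue, T.p_glue, ← add_smul, hαβ, one_smul]
    · rw [map_add, map_smul, map_smul, T.q_glue, T.q_glue, T.q_glue]
  show T.glue (fun i => T.p i o) (α • b + β • b') ∈ K
  rw [h]
  exact hK hb hb' hα hβ hαβ

omit [DecidableEq ι] [∀ i, FiniteDimensional ℝ (E i)] [FiniteDimensional ℝ V] in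
theorem secAt_compact (hKc : IsCompact K) (o : V) : IsCompact (SecAt T K o) := by
  have h1 : SecAt T K o = T.glue (fun i => T.p i o) ⁻¹' K := rfl
  have hiso := glue_isometry T fun i => T.p i o
  rw [h1]
  refine Metric.isCompact_of_isClosed_isBounded (hKc.isClosed.preimage hiso.continuous) ?_
  exact hiso.antilipschitz.isBounded_preimage hKc.isBounded

omit [DecidableEq ι] [∀ i, FiniteDimensional ℝ (E i)] [FiniteDimensional ℝ F]
  [FiniteDimensional ℝ V] in
theorem secAt_interior {o : V} (ho : o ∈ interior K) : T.q o ∈ interior (SecAt T K o) := by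
  have h1 : SecAt T K o = T.glue (fun i => T.p i o) ⁻¹' K := rfl
  have hc := (glue_isometry T fun i => T.p i o).continuous
  rw [h1]
  refine preimage_interior_subset_interior_preimage hc ?_
  have h2 : T.glue (fun i => T.p i o) (T.q o) = o :=
    T.ext (fun i => T.p_glue _ _ _) (T.q_glue _ _)
  show T.glue (fun i => T.p i o) (T.q o) ∈ interior K
  rw [h2]; exact ho

/-- the bound by the number of the section, general point -/
theorem mainA [Nontrivial F] (hΓ : ∀ i, Hom (Γ i)) (hK : Convex ℝ K) (hKc : IsCompact K) {o : V} (ho : o ∈ interior K)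
    (hinv : InvAt T K o Γ) (hmov : ∀ i, Moving (Γ i)) (D : ∀ i, Finset (E i))
    (hD : ∀ i, HasTests (Γ i) (D i)) {N : ℕ} (hN : SeparatedBy (SecAt T K o) (T.q o) N) :
    SeparatedBy K o ((∏ i, ((D i).card + 1)) * N) := by
  classical
  rw [← separatedBy_shift] at hN ⊢
  rw [← sec_shift] at hN
  set K' : Set V := (fun x => x + o) ⁻¹' K with hK'
  have e1 : K' = (Homeomorph.addRight o) ⁻¹' K := rfl
  have hc' : IsCompact K' := by
    rw [e1]; exact (Homeomorph.addRight o).isCompact_preimage.2 hKc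
  have h0 : 0 ∈ interior K' := by
    rw [e1, ← (Homeomorph.addRight o).preimage_interior]
    simpa using ho
  have hconv : Convex ℝ K' := hK.translate_preimage_left o
  have hs : Sec T K' = SecAt T K' 0 := by
    have : (fun i => T.p i (0 : V)) = (0 : ∀ i, E i) := funext fun i => map_zero _
    unfold Sec SecAt
    rw [this]
  have h1 : IsCompact (Sec T K') := hs ▸ secAt_compact T hc' 0
  have h2 : (Sec T K').Nonempty := ⟨T.q 0, interior_subset (hs ▸ secAt_interior T h0)⟩
  obtain ⟨-, D0, hD1, hD2, hD3⟩ := hN.dirs h1 h2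
  refine SeparatedBy.of_dirs ?_
  obtain ⟨D', β, h3, h4, h5⟩ := coreA T hΓ hconv hc' h0 (inv_shift T hinv) hmov D hD D0 hD1 hD3
  exact ⟨D', β, h3.trans (Nat.mul_le_mul_left _ hD2), h4, h5⟩

/-- the bound if the section is a cross-body, general point -/
theorem mainB [Nonempty ι] (hΓ : ∀ i, Hom (Γ i)) (hE : ∀ i, Nontrivial (E i)) (hK : Convex ℝ K) (hKc : IsCompact K)
    {o : V} (ho : o ∈ interior K)
    (hinv : InvAt T K o Γ) (hmov : ∀ i, Moving (Γ i)) (D : ∀ i, Finset (E i))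
    (hD : ∀ i, HasTests (Γ i) (D i)) {e : ℕ} (he : 1 ≤ e) (b : Module.Basis (Fin e) ℝ F)
    (r : Fin e → ℝ) (hr : ∀ i, 0 < r i)
    (hsec : SecAt T K o = convexHull ℝ (⋃ i, ({T.q o + b i, T.q o - r i • b i} : Set F))) :
    SeparatedBy K o ((∏ i, ((D i).card + 1) - 1) * 2 ^ e) := by
  classical
  rw [← separatedBy_shift]
  set K' : Set V := (fun x => x + o) ⁻¹' K with hK'
  have e1 : K' = (Homeomorph.addRight o) ⁻¹' K := rfl
  have hc' : IsCompact K' := by
    rw [e1]; exact (Homeomorph.addRight o).isCompact_preimage.2 hKc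
  have h0 : 0 ∈ interior K' := by
    rw [e1, ← (Homeomorph.addRight o).preimage_interior]
    simpa using ho
  have hconv : Convex ℝ K' := hK.translate_preimage_left o
  have hs : Sec T K' = Cross b r := by
    rw [sec_shift, hsec, Cross]
    have h1 : (⋃ i, ({T.q o + b i, T.q o - r i • b i} : Set F)) =
        (fun x => x + T.q o) '' (⋃ i, ({b i, -(r i • b i)} : Set F)) := by
      rw [image_iUnion]
      refine iUnion_congr fun i => ?_
      rw [image_pair, add_comm (b i), neg_add_eq_sub]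
    rw [h1]
    have h2 : (fun x => x + T.q o) '' (⋃ i, ({b i, -(r i • b i)} : Set F)) =
        (AffineEquiv.constVAdd ℝ F (T.q o)).toAffineMap ''
          (⋃ i, ({b i, -(r i • b i)} : Set F)) := by
      refine image_congr fun x _ => ?_
      simp [add_comm]
    rw [h2, ← AffineMap.image_convexHull]
    ext x
    constructor
    · rintro ⟨y, hy, hxy⟩
      have : y = x := by
        have h3 : T.q o + y = x + T.q o := by simpa using hxy
        rw [add_comm x] at h3
        exact add_left_cancel h3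
      exact this ▸ hy
    · intro hx
      exact ⟨x, hx, by simp [add_comm]⟩
  exact SeparatedBy.of_dirs (coreB T hΓ hE hconv hc' h0 (inv_shift T hinv) hmov D hD he b r hr hs)

end

end Pool.Agent.V7H52.GX
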