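import Mathlib
import Pool.Agent.V7H52.GX.Main
import Pool.Agent.Results.MP_5e7226_co.ExtremePointsInFlats
import Pool.Agent.Results.MP_5e7226_co.AllConvexBodies
import Pool.Agent.Results.MP_5e7226_co.ThirteenHyperplanes

set_option autoImplicit false

open scoped InnerProductSpace

/-!
# The bounds for bodies in a sum of blocks and of a last part
-/

namespace Pool.Agent.V7H52.GX

open Pool.Agent.Results.MP_5e7226_co
open Pool.Agent.Results.MP_5e7226_co.ExtremePointsInFlats (Eu IsCrossBody BothParts)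

/-- `ℝ^(m 1) ⊕ ... ⊕ ℝ^(m r) ⊕ ℝ^e` with its Euclidean structure. -/
abbrev Space {r : ℕ} (m : Fin r → ℕ) (e : ℕ) : Type :=
  WithLp 2 (PiLp 2 (fun i => EuclideanSpace ℝ (Fin (m i))) × EuclideanSpace ℝ (Fin e))

/-- The section of `K` by the flat through `o` parallel to `ℝ^e`. -/
def section₀ {r : ℕ} {m : Fin r → ℕ} {e : ℕ} (K : Set (Space m e)) (o : Space m e) :
    Set (Eu e) :=
  {b | (WithLp.toLp 2 (o.fst, b) : Space m e) ∈ K}

/-- The bounds with the factor `P`, where `K₀` is the section `section₀ K o` and `d = ∑ m i + e` is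
the dimension:
* `P N` hyperplanes suffice for `K` if `N` suffice for `K₀`;
* `(P - 1) 2 ^ e` suffice if `K₀` is a cross-body centred at `o`;
* `2 (P - 1)` suffice if `e = 1`;
* `2 ^ d - 1` suffice if `P ≤ 2 ^ (∑ m i)` and `e ≤ 2` or the conjecture is true for `(K₀, o)`;
* `2 ^ d` suffice if `P - 1 ≤ 2 ^ (∑ m i)`, `P (2 ^ e - 1) ≤ 2 ^ d` and `e ≤ 2` or the conjecture is
  true for `(K₀, o)`;
* `2 ^ d - 1` suffice if `3 e log (2 e ^ 2 + 2 e + 1) P < 2 ^ (∑ m i)`;
* `13 P` suffice if `e = 3`. -/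
def Bounds {r : ℕ} {m : Fin r → ℕ} {e : ℕ} (K : Set (Space m e)) (o : Space m e) (P : ℕ) : Prop :=
  (∀ N, SeparatedBy (section₀ K o) o.snd N → SeparatedBy K o (P * N)) ∧
  (IsCrossBody (section₀ K o) o.snd → SeparatedBy K o ((P - 1) * 2 ^ e)) ∧
  (e = 1 → SeparatedBy K o (2 * (P - 1))) ∧
  (P ≤ 2 ^ ∑ i, m i → (e ≤ 2 ∨ BothParts (section₀ K o) o.snd) →
    SeparatedBy K o (2 ^ (∑ i, m i + e) - 1)) ∧
  (P - 1 ≤ 2 ^ ∑ i, m i → P * (2 ^ e - 1) ≤ 2 ^ (∑ i, m i + e) →
    (e ≤ 2 ∨ BothParts (section₀ K o) o.snd) → SeparatedBy K o (2 ^ (∑ i, m i + e))) ∧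
  (3 * (e * Real.log (2 * e ^ 2 + 2 * e + 1)) * P < 2 ^ ∑ i, m i →
    SeparatedBy K o (2 ^ (∑ i, m i + e) - 1)) ∧
  (e = 3 → SeparatedBy K o (13 * P))

/-- the decomposition -/
noncomputable def dec {r : ℕ} (m : Fin r → ℕ) (e : ℕ) :
    Dec (Fin r) (fun i => EuclideanSpace ℝ (Fin (m i))) (EuclideanSpace ℝ (Fin e)) (Space m e) where
  p i := (PiLp.proj 2 (fun i => EuclideanSpace ℝ (Fin (m i))) i : _ →L[ℝ] _).comp
    (WithLp.fstL 2 ℝ _ _)
  q := WithLp.sndL 2 ℝ _ _
  glue a b := WithLp.toLp 2 (WithLp.toLp 2 a, b)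
  p_glue a b i := rfl
  q_glue a b := rfl
  inner_eq x y := by
    rw [WithLp.prod_inner_apply, PiLp.inner_apply]
    rfl

/-- one hyperplane does not suffice -/
theorem not_one {V : Type*} [NormedAddCommGroup V] [InnerProductSpace ℝ V] [Nontrivial V]
    {K : Set V} (hKc : IsCompact K) {o : V} (ho : o ∈ interior K) : ¬ SeparatedBy K o 1 := by
  intro h
  rw [← separatedBy_shift] at h
  set K' : Set V := (fun x => x + o) ⁻¹' K with hK'
  have e1 : K' = (Homeomorph.addRight o) ⁻¹' K := rfl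
  have hc' : IsCompact K' := by
    rw [e1]; exact (Homeomorph.addRight o).isCompact_preimage.2 hKc
  have h0 : (0 : V) ∈ interior K' := by
    rw [e1, ← (Homeomorph.addRight o).preimage_interior]
    simpa using ho
  obtain ⟨-, D, hD1, hD2, hD3⟩ := h.dirs hc' ⟨0, interior_subset h0⟩
  obtain ⟨w, hw⟩ := hD1
  have hall : ∀ v ∈ D, v = w := fun v hv => Finset.card_le_one.1 hD2 v hv w hw
  have hmx : ∀ u : V, ∃ x, Mx K' u x := by
    intro u
    obtain ⟨x, hx, hmax⟩ := hc'.exists_isMaxOn ⟨0, interior_subset h0⟩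
      (f := fun x => ⟪u, x⟫_ℝ) (by fun_prop)
    exact ⟨x, hx, fun y hy => hmax hy⟩
  have hw0 : w ≠ 0 := by
    rintro rfl
    obtain ⟨u, hu⟩ := exists_ne (0 : V)
    obtain ⟨v, hv, h1⟩ := hD3 u hu
    obtain ⟨x, hx⟩ := hmx u
    have h2 := h1 x hx
    rw [hall v hv, inner_zero_left] at h2
    exact lt_irrefl _ h2
  obtain ⟨v, hv, h1⟩ := hD3 (-w) (neg_ne_zero.2 hw0)
  obtain ⟨x, hx⟩ := hmx (-w)
  have h2 := h1 x hx
  rw [hall v hv] at h2
  have h3 := max_pos h0 (neg_ne_zero.2 hw0) hx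
  rw [inner_neg_left] at h3
  linarith

/-- in the plane and on the line -/
theorem bothParts_low {e : ℕ} (he : 1 ≤ e) (h2 : e ≤ 2) {K : Set (Eu e)} (hK : Convex ℝ K)
    (hKc : IsCompact K) {o : Eu e} (ho : o ∈ interior K) : BothParts K o := by
  have h := (ExtremePointsInFlats.result e he K hK hKc o ho 1).2
    (fun _ => ⊤) (by
      intro x _
      exact Set.mem_iUnion.2 ⟨0, by simp⟩)
  have hd : ExtremePointsInFlats.flatDim (⊤ : AffineSubspace ℝ (Eu e)) = e := by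
    unfold ExtremePointsInFlats.flatDim
    rw [AffineSubspace.direction_top, finrank_top]
    simp
  exact h.1 (fun _ => by rw [hd]; exact h2) (by simp [hd])

/-- **The bounds.** -/
theorem bounds {r : ℕ} (hr : 1 ≤ r) {m : Fin r → ℕ} (hm : ∀ i, 1 ≤ m i) {e : ℕ} (he : 1 ≤ e)
    {Γ : ∀ i, Set (EuclideanSpace ℝ (Fin (m i)) → EuclideanSpace ℝ (Fin (m i)))}
    (hΓ : ∀ i, Hom (Γ i)) (hmov : ∀ i, Moving (Γ i))
    {D : ∀ i, Finset (EuclideanSpace ℝ (Fin (m i)))} (hD : ∀ i, HasTests (Γ i) (D i))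
    {K : Set (Space m e)} (hK : Convex ℝ K) (hKc : IsCompact K) {o : Space m e}
    (ho : o ∈ interior K) (hinv : InvAt (dec m e) K o Γ) {P : ℕ}
    (hP : ∏ i, ((D i).card + 1) ≤ P) : Bounds K o P := by
  classical
  have hrn : Nonempty (Fin r) := ⟨⟨0, hr⟩⟩
  have hE : ∀ i, Nontrivial (EuclideanSpace ℝ (Fin (m i))) := fun i => by
    have : Nonempty (Fin (m i)) := ⟨⟨0, hm i⟩⟩
    infer_instance
  have hF : Nontrivial (EuclideanSpace ℝ (Fin e)) := by
    have : Nonempty (Fin e) := ⟨⟨0, he⟩⟩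
    infer_instance
  have hsec : SecAt (dec m e) K o = section₀ K o := rfl
  have hKs : Convex ℝ (section₀ K o) := by
    rw [← hsec]; exact secAt_convex (dec m e) hK o
  have hcs : IsCompact (section₀ K o) := by
    rw [← hsec]; exact secAt_compact (dec m e) hKc o
  have hos : o.snd ∈ interior (section₀ K o) := by
    rw [← hsec]; exact secAt_interior (dec m e) ho
  -- from a finite set of planes
  have hfin : ∀ (N : ℕ) (H : Finset (Eu e × ℝ)), H.card ≤ N → (∀ u x₀ : Eu e, u ≠ 0 →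
      x₀ ∈ section₀ K o → (∀ y ∈ section₀ K o, ⟪u, y⟫_ℝ ≤ ⟪u, x₀⟫_ℝ) →
        ∃ h ∈ H, ⟪h.1, o.snd⟫_ℝ < h.2 ∧ ∀ x ∈ section₀ K o, ⟪u, x⟫_ℝ = ⟪u, x₀⟫_ℝ →
          h.2 < ⟪h.1, x⟫_ℝ) → SeparatedBy (section₀ K o) o.snd N := by
    intro N H hHN h
    refine ⟨fun i => (H.toList.getD i (0, 0)).1, fun i => (H.toList.getD i (0, 0)).2,
      fun u x₀ hu hx₀ hmax => ?_⟩
    obtain ⟨t, ht, h4⟩ := h u x₀ hu hx₀ hmax
    obtain ⟨i, hi, hit⟩ := List.getElem_of_mem (Finset.mem_toList.2 ht)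
    have hiN : i < N := by
      rw [Finset.length_toList] at hi
      omega
    have h5 : H.toList.getD i (0, 0) = t := by
      rw [List.getD_eq_getElem _ _ hi, hit]
    refine ⟨⟨i, hiN⟩, ?_⟩
    simp only [h5]
    exact h4
  have hA : ∀ N, SeparatedBy (section₀ K o) o.snd N → SeparatedBy K o (P * N) := by
    intro N hN
    exact (mainA (dec m e) hΓ hK hKc ho hinv hmov D hD hN).mono (Nat.mul_le_mul_right _ hP)
  have hB : IsCrossBody (section₀ K o) o.snd → SeparatedBy K o ((P - 1) * 2 ^ e) := by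
    rintro ⟨v, t, hv, ht, hKv⟩
    have hcard : Fintype.card (Fin e) = Module.finrank ℝ (Eu e) := by simp
    have : Nonempty (Fin e) := ⟨⟨0, he⟩⟩
    refine SeparatedBy.mono (mainB (dec m e) hΓ hE hK hKc ho hinv hmov D hD he
      (basisOfLinearIndependentOfCardEqFinrank hv hcard) t ht ?_)
      (Nat.mul_le_mul_right _ (Nat.sub_le_sub_right hP 1))
    rw [hsec, hKv]
    simp only [coe_basisOfLinearIndependentOfCardEqFinrank]
    rfl
  have hP1 : 1 ≤ P := le_trans (Finset.one_le_prod' fun i _ => by omega) hP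
  have he2 : 1 < 2 ^ e := Nat.one_lt_two_pow (by omega)
  have hboth : (e ≤ 2 ∨ BothParts (section₀ K o) o.snd) → BothParts (section₀ K o) o.snd := by
    rintro (h | h)
    · exact bothParts_low he h hKs hcs hos
    · exact h
  refine ⟨hA, hB, ?_, ?_, ?_, ?_, ?_⟩
  · intro he1
    have hb := bothParts_low he (by omega) hKs hcs hos
    have h1 : ¬ ExtremePointsInFlats.SeparatedBy (section₀ K o) o.snd (2 ^ e - 1) := by
      intro h
      subst he1
      exact not_one hcs hos h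
    refine (hB (hb.2 h1)).mono ?_
    rw [he1]
    omega
  · intro hP2 hor
    have hb := hboth hor
    have hpow : 1 ≤ 2 ^ (∑ i, m i) := Nat.one_le_two_pow
    by_cases h1 : ExtremePointsInFlats.SeparatedBy (section₀ K o) o.snd (2 ^ e - 1)
    · refine SeparatedBy.mono (hA _ h1) ?_
      calc P * (2 ^ e - 1) ≤ 2 ^ (∑ i, m i) * (2 ^ e - 1) := Nat.mul_le_mul_right _ hP2
        _ = 2 ^ (∑ i, m i + e) - 2 ^ (∑ i, m i) := by
            rw [Nat.mul_sub, mul_one, pow_add]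
        _ ≤ 2 ^ (∑ i, m i + e) - 1 := Nat.sub_le_sub_left hpow _
    · refine (hB (hb.2 h1)).mono ?_
      calc (P - 1) * 2 ^ e ≤ (2 ^ (∑ i, m i) - 1) * 2 ^ e :=
            Nat.mul_le_mul_right _ (Nat.sub_le_sub_right hP2 1)
        _ = 2 ^ (∑ i, m i + e) - 2 ^ e := by rw [Nat.sub_mul, one_mul, pow_add]
        _ ≤ 2 ^ (∑ i, m i + e) - 1 := Nat.sub_le_sub_left he2.le _
  · intro hP2 hP3 hor
    have hb := hboth hor
    by_cases h1 : ExtremePointsInFlats.SeparatedBy (section₀ K o) o.snd (2 ^ e - 1)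
    · exact SeparatedBy.mono (hA _ h1) hP3
    · refine (hB (hb.2 h1)).mono ?_
      rw [pow_add]
      exact Nat.mul_le_mul_right _ hP2
  · intro hlt
    rcases Nat.lt_or_ge 1 e with h1 | h1
    · obtain ⟨H, hH1, -, hH2⟩ := AllConvexBodies.result e h1 (section₀ K o) hcs o.snd hos
      have h3 := hA _ (hfin H.card H le_rfl hH2)
      refine h3.mono ?_
      have h4 : ((P * H.card : ℕ) : ℝ) < ((2 ^ (∑ i, m i + e) : ℕ) : ℝ) := by
        push_cast
        have hP0 : (0 : ℝ) < P := by exact_mod_cast hP1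
        calc (P : ℝ) * H.card ≤ P * (3 * 2 ^ e * (e * Real.log (2 * e ^ 2 + 2 * e + 1))) :=
              mul_le_mul_of_nonneg_left hH1 hP0.le
          _ = (3 * (e * Real.log (2 * e ^ 2 + 2 * e + 1)) * P) * 2 ^ e := by ring
          _ < 2 ^ (∑ i, m i) * 2 ^ e := mul_lt_mul_of_pos_right hlt (by positivity)
          _ = 2 ^ (∑ i, m i + e) := (pow_add _ _ _).symm
      have h5 : P * H.card < 2 ^ (∑ i, m i + e) := by exact_mod_cast h4
      omega
    · -- `e = 1`
      have he1 : e = 1 := by omega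
      have hb := bothParts_low he (by omega) hKs hcs hos
      refine SeparatedBy.mono (hA _ hb.1) ?_
      have h3 : (P : ℝ) ≤ 3 * (e * Real.log (2 * e ^ 2 + 2 * e + 1)) * P := by
        have hP0 : (0 : ℝ) < P := by exact_mod_cast hP1
        have h4 : (1 : ℝ) ≤ 3 * (e * Real.log (2 * e ^ 2 + 2 * e + 1)) := by
          rw [he1]
          have h5 : 1 ≤ Real.log (2 * ((1 : ℕ) : ℝ) ^ 2 + 2 * ((1 : ℕ) : ℝ) + 1) := by
            rw [Real.le_log_iff_exp_le (by positivity)]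
            have := Real.exp_one_lt_d9
            norm_num
            linarith
          push_cast at h5 ⊢
          linarith
        nlinarith
      have h4 : (P : ℝ) < ((2 ^ ∑ i, m i : ℕ) : ℝ) := by
        push_cast
        exact h3.trans_lt hlt
      have h5 : P < 2 ^ ∑ i, m i := by exact_mod_cast h4
      rw [pow_add]
      have h6 : P * 2 ^ e < 2 ^ (∑ i, m i) * 2 ^ e := Nat.mul_lt_mul_of_pos_right h5 (by omega)
      omega
  · intro he3
    subst he3
    obtain ⟨H, hH1, -, hH2⟩ := ThirteenHyperplanes.result (section₀ K o) hcs o.snd hos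
    rw [mul_comm]
    exact hA _ (hfin 13 H hH1 hH2)

end Pool.Agent.V7H52.GX
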